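import Mathlib

/-!
If an analytic nonconstant function of a smooth function `f` has a convergent Taylor series at a
point, then so has `f`.
-/

set_option autoImplicit false

open Filter Topology Asymptotics Finset

namespace Pool.Agent.H451R3.PS

/-- smaller than every power of the distance to `x0` -/
def Flat (x0 : ℝ) (D : ℝ → ℝ) : Prop := ∀ N : ℕ, D =O[𝓝[≠] x0] fun x => (x - x0) ^ N

variable {x0 : ℝ}

lemma Flat.mono {D E : ℝ → ℝ} (h : Flat x0 D) (h' : E =O[𝓝[≠] x0] D) : Flat x0 E :=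
  fun N => h'.trans (h N)

lemma Flat.div_pow {D : ℝ → ℝ} (h : Flat x0 D) (k : ℕ) : Flat x0 (fun x => D x / (x - x0) ^ k) := by
  intro N
  have h1 := (h (N + k)).mul (isBigO_refl (fun x => ((x - x0) ^ k)⁻¹) (𝓝[≠] x0))
  refine h1.congr' ?_ ?_
  · filter_upwards with x
    rw [div_eq_mul_inv]
  · filter_upwards [self_mem_nhdsWithin] with x hx
    have hx' : x - x0 ≠ 0 := sub_ne_zero.2 hx
    rw [pow_add, mul_assoc, mul_inv_cancel₀ (pow_ne_zero k hx'), mul_one]

lemma pow_o {m n : ℕ} (h : m < n) :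
    (fun x : ℝ => (x - x0) ^ n) =o[𝓝 x0] fun x => (x - x0) ^ m := by
  have h1 := Asymptotics.isLittleO_pow_sub_pow_sub x0 h
  refine (IsLittleO.of_norm_norm ?_)
  simpa only [norm_pow] using h1

/-- Taylor polynomial -/
noncomputable def tp (f : ℝ → ℝ) (x0 : ℝ) (N : ℕ) (x : ℝ) : ℝ :=
  ∑ k ∈ range (N + 1), iteratedDeriv k f x0 / k.factorial * (x - x0) ^ k

lemma taylor_o {f : ℝ → ℝ} (hf : ContDiff ℝ (⊤ : ℕ∞) f) (N : ℕ) :
    (fun x => f x - tp f x0 N x) =o[𝓝 x0] fun x => (x - x0) ^ N := by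
  have h1 := taylor_isLittleO_univ (x₀ := x0) (n := N) (hf.of_le (by exact_mod_cast le_top))
  refine h1.congr' ?_ EventuallyEq.rfl
  filter_upwards with x
  rw [taylor_within_apply]
  unfold tp
  congr 1
  refine sum_congr rfl fun k _ => ?_
  rw [iteratedDerivWithin_univ, smul_eq_mul]
  ring

lemma series_o {F : ℝ → ℝ} {c : ℕ → ℝ}
    (h : HasFPowerSeriesAt F (FormalMultilinearSeries.ofScalars ℝ c) x0) (N : ℕ) :
    (fun x => F x - ∑ k ∈ range N, c k * (x - x0) ^ k) =O[𝓝 x0] fun x => (x - x0) ^ N := by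
  have h1 := h.isBigO_sub_partialSum_pow N
  have h2 : Tendsto (fun x : ℝ => x - x0) (𝓝 x0) (𝓝 0) := by
    have := (by fun_prop : Continuous fun x : ℝ => x - x0).tendsto x0
    rwa [sub_self] at this
  have h3 := h1.comp_tendsto h2
  refine (IsBigO.of_norm_right ?_)
  refine h3.congr' ?_ ?_
  · filter_upwards with x
    simp only [Function.comp]
    rw [add_sub_cancel]
    congr 1
    unfold FormalMultilinearSeries.partialSum
    refine sum_congr rfl fun k _ => ?_
    rw [FormalMultilinearSeries.ofScalars_apply_eq, smul_eq_mul]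
  · filter_upwards with x
    simp only [Function.comp, norm_pow]

lemma exists_G {c : ℕ → ℝ} (hrad : 0 < (FormalMultilinearSeries.ofScalars ℝ c).radius) (x0 : ℝ) :
    ∃ G : ℝ → ℝ, HasFPowerSeriesAt G (FormalMultilinearSeries.ofScalars ℝ c) x0 := by
  have h1 := (FormalMultilinearSeries.hasFPowerSeriesOnBall _ hrad).comp_sub x0
  rw [zero_add] at h1
  exact ⟨_, h1.hasFPowerSeriesAt⟩

lemma flat_sub {g G : ℝ → ℝ} (hg : ContDiff ℝ (⊤ : ℕ∞) g)
    (hG : HasFPowerSeriesAt G (FormalMultilinearSeries.ofScalars ℝ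
      (fun n => iteratedDeriv n g x0 / n.factorial)) x0) : Flat x0 (fun x => g x - G x) := by
  intro N
  have h1 := (taylor_o (x0 := x0) hg N).isBigO
  have h2 := (series_o hG (N + 1)).trans (pow_o (x0 := x0) (Nat.lt_succ_self N)).isBigO
  have h3 := (h1.sub h2).mono (nhdsWithin_le_nhds (s := {x0}ᶜ))
  refine h3.congr' ?_ EventuallyEq.rfl
  filter_upwards with x
  unfold tp
  ring

lemma const_o {c : ℝ} {N : ℕ}
    (h : (fun x : ℝ => c * (x - x0) ^ N) =o[𝓝[≠] x0] fun x => (x - x0) ^ N) : c = 0 := by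
  by_contra hc
  have h1 := h.bound (show (0 : ℝ) < |c| / 2 by positivity)
  have h2 : ∀ᶠ x in 𝓝[≠] x0, x ≠ x0 := self_mem_nhdsWithin
  obtain ⟨x, hx1, hx2⟩ := (h1.and h2).exists
  have h3 : 0 < |(x - x0) ^ N| := abs_pos.2 (pow_ne_zero N (sub_ne_zero.2 hx2))
  rw [Real.norm_eq_abs, Real.norm_eq_abs, abs_mul] at hx1
  have h4 : 0 < |c| := abs_pos.2 hc
  nlinarith

lemma jets_eq {f F : ℝ → ℝ} (hf : ContDiff ℝ (⊤ : ℕ∞) f) (hF : AnalyticAt ℝ F x0)
    (h : Flat x0 (fun x => f x - F x)) (n : ℕ) : iteratedDeriv n f x0 = iteratedDeriv n F x0 := by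
  induction n using Nat.strong_induction_on with
  | _ n ih =>
    have h1 := (taylor_o (x0 := x0) hf n).mono (nhdsWithin_le_nhds (s := {x0}ᶜ))
    have h2 := ((series_o hF.hasFPowerSeriesAt (n + 1)).trans_isLittleO
      (pow_o (x0 := x0) (Nat.lt_succ_self n))).mono (nhdsWithin_le_nhds (s := {x0}ᶜ))
    have h3 := (h (n + 1)).trans_isLittleO
      ((pow_o (x0 := x0) (Nat.lt_succ_self n)).mono (nhdsWithin_le_nhds (s := {x0}ᶜ)))
    have h4 := (h3.sub h1).add h2
    have h5 : (fun x : ℝ => ((iteratedDeriv n f x0 - iteratedDeriv n F x0) / n.factorial) *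
        (x - x0) ^ n) =o[𝓝[≠] x0] fun x => (x - x0) ^ n := by
      refine h4.congr' ?_ EventuallyEq.rfl
      filter_upwards with x
      unfold tp
      rw [sum_range_succ, sum_range_succ]
      have h6 : ∑ k ∈ range n, iteratedDeriv k f x0 / k.factorial * (x - x0) ^ k =
          ∑ k ∈ range n, iteratedDeriv k F x0 / k.factorial * (x - x0) ^ k := by
        refine sum_congr rfl fun k hk => ?_
        rw [ih k (mem_range.1 hk)]
      rw [h6]
      ring
    have h7 := const_o h5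
    have h8 : (n.factorial : ℝ) ≠ 0 := by exact_mod_cast n.factorial_ne_zero
    rw [div_eq_zero_iff] at h7
    rcases h7 with h7 | h7
    · linarith
    · exact absurd h7 h8

/-- analytic local inverse -/
lemma exists_inv {ψ : ℝ → ℝ} {a : ℝ} (h : AnalyticAt ℝ ψ a) (h' : deriv ψ a ≠ 0) :
    ∃ φ : ℝ → ℝ, AnalyticAt ℝ φ (ψ a) ∧ φ (ψ a) = a ∧ (∀ᶠ s in 𝓝 a, φ (ψ s) = s) ∧
      (∀ᶠ r in 𝓝 (ψ a), ψ (φ r) = r) := by
  refine ⟨h.hasStrictDerivAt.localInverse _ _ _ h', h.analyticAt_localInverse h',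
    HasStrictFDerivAt.localInverse_apply_image .., ?_, ?_⟩
  · exact HasStrictDerivAt.eventually_left_inverse ..
  · exact HasStrictDerivAt.eventually_right_inverse ..

/-- local Lipschitz property along functions -/
lemma lip {φ A B : ℝ → ℝ} {a : ℝ} {l : Filter ℝ} (h : AnalyticAt ℝ φ a) (hA : Tendsto A l (𝓝 a))
    (hB : Tendsto B l (𝓝 a)) : (fun x => φ (A x) - φ (B x)) =O[l] fun x => A x - B x := by
  have h1 := h.hasStrictDerivAt.hasStrictFDerivAt.isBigO_sub
  exact h1.comp_tendsto (hA.prodMk_nhds hB)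

/-- inverse of the power function -/
lemma exists_root {v : ℝ} (hv : v ≠ 0) {m : ℕ} (hm : 1 ≤ m) :
    ∃ φ : ℝ → ℝ, AnalyticAt ℝ φ (v ^ m) ∧ φ (v ^ m) = v ∧ (∀ᶠ s in 𝓝 v, φ (s ^ m) = s) ∧
      (∀ᶠ r in 𝓝 (v ^ m), φ r ^ m = r) := by
  have h1 : AnalyticAt ℝ (fun s : ℝ => s ^ m) v := analyticAt_id.pow m
  have h2 : deriv (fun s : ℝ => s ^ m) v ≠ 0 := by
    have h3 : HasDerivAt (fun s : ℝ => s ^ m) ((m : ℝ) * v ^ (m - 1)) v := hasDerivAt_pow m v
    rw [h3.deriv]
    exact mul_ne_zero (by exact_mod_cast (by omega : m ≠ 0)) (pow_ne_zero _ hv)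
  exact exists_inv h1 h2

theorem key {f h g : ℝ → ℝ} (hf : ContDiff ℝ (⊤ : ℕ∞) f) (hh : AnalyticAt ℝ h (f x0))
    (hnc : ¬ ∀ᶠ s in 𝓝 (f x0), h s = h (f x0)) (hnf : ∃ l, 1 ≤ l ∧ iteratedDeriv l f x0 ≠ 0)
    (hg : ContDiff ℝ (⊤ : ℕ∞) g) (hgf : g = h ∘ f)
    (hrad : 0 < (FormalMultilinearSeries.ofScalars ℝ
      (fun n : ℕ => iteratedDeriv n g x0 / (n.factorial : ℝ))).radius) :
    0 < (FormalMultilinearSeries.ofScalars ℝ
      (fun n : ℕ => iteratedDeriv n f x0 / (n.factorial : ℝ))).radius := by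
  classical
  set c := f x0 with hc
  -- the order of `f - c`
  obtain ⟨hl1, hl2⟩ := Nat.find_spec hnf
  have hlmin := fun k (hk : k < Nat.find hnf) => Nat.find_min hnf hk
  set l := Nat.find hnf with hl
  set u0 : ℝ := iteratedDeriv l f x0 / l.factorial with hu0
  have hu0ne : u0 ≠ 0 := div_ne_zero hl2 (by exact_mod_cast l.factorial_ne_zero)
  have hfu : Tendsto (fun x => (f x - c) / (x - x0) ^ l) (𝓝[≠] x0) (𝓝 u0) := by
    have h1 := ((taylor_o (x0 := x0) hf l).mono (nhdsWithin_le_nhds (s := {x0}ᶜ))).tendsto_div_nhds_zero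
    have h2 := h1.add_const u0
    rw [zero_add] at h2
    refine h2.congr' ?_
    filter_upwards [self_mem_nhdsWithin] with x hx
    have hx' : (x - x0) ^ l ≠ 0 := pow_ne_zero l (sub_ne_zero.2 hx)
    have h3 : tp f x0 l x = c + u0 * (x - x0) ^ l := by
      unfold tp
      rw [sum_range_succ, hu0]
      congr 1
      rw [sum_eq_single 0]
      · simp [hc]
      · intro k hk hk0
        have : iteratedDeriv k f x0 = 0 := by
          by_contra hne
          exact hlmin k (mem_range.1 hk) ⟨by omega, hne⟩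
        rw [this]
        simp
      · intro h0
        exact absurd (mem_range.2 (by omega)) h0
    rw [h3]
    field_simp
    ring
  -- the order of `h - h c`
  have hh0 : AnalyticAt ℝ (fun s => h s - h c) c := hh.sub analyticAt_const
  obtain ⟨m, w, hw, hwc, hwe⟩ := hh0.exists_eventuallyEq_pow_smul_nonzero_iff.2 (by
    intro hcon
    apply hnc
    filter_upwards [hcon] with s hs
    linarith)
  have hm : 1 ≤ m := by
    by_contra hm0
    have : m = 0 := by omega
    subst this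
    have := hwe.self_of_nhds
    simp at this
    exact hwc this.symm
  -- sign
  obtain ⟨σ, hσ, hσw⟩ : ∃ σ : ℝ, (σ = 1 ∨ σ = -1) ∧ 0 < σ * w c := by
    rcases lt_or_gt_of_ne hwc with h1 | h1
    · exact ⟨-1, Or.inr rfl, by linarith⟩
    · exact ⟨1, Or.inl rfl, by linarith⟩
  set W0 : ℝ := (σ * w c) ^ ((m : ℝ)⁻¹) with hW0
  have hW0m : W0 ^ m = σ * w c := Real.rpow_inv_natCast_pow hσw.le (by omega)
  have hW0pos : 0 < W0 := Real.rpow_pos_of_pos hσw _
  obtain ⟨φ1, h11, h12, h13, h14⟩ := exists_root hW0pos.ne' hm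
  set W : ℝ → ℝ := fun s => φ1 (σ * w s) with hW
  have hWa : AnalyticAt ℝ W c := by
    have h1 : AnalyticAt ℝ (fun s => σ * w s) c := analyticAt_const.mul hw
    rw [hW0m] at h11
    exact AnalyticAt.fun_comp (g := φ1) (f := fun s => σ * w s) h11 h1
  have hWc : W c = W0 := by
    rw [hW]
    simp only
    rw [← hW0m, h12]
  have hWm : ∀ᶠ s in 𝓝 c, W s ^ m = σ * w s := by
    have h1 : Tendsto (fun s => σ * w s) (𝓝 c) (𝓝 (W0 ^ m)) := by
      rw [hW0m]
      exact (hw.continuousAt.const_mul σ)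
    exact h1.eventually h14
  set ψ : ℝ → ℝ := fun s => (s - c) * W s with hψ
  have hψa : AnalyticAt ℝ ψ c := (analyticAt_id.sub analyticAt_const).mul hWa
  have hψc : ψ c = 0 := by rw [hψ]; simp
  have hψd : deriv ψ c ≠ 0 := by
    have h1 : HasDerivAt (fun s : ℝ => s - c) 1 c := (hasDerivAt_id c).sub_const c
    have h2 : HasDerivAt ψ (1 * W c + (c - c) * deriv W c) c :=
      h1.mul hWa.differentiableAt.hasDerivAt
    rw [h2.deriv, hWc]
    simp only [sub_self, zero_mul, add_zero, one_mul]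
    exact hW0pos.ne'
  obtain ⟨φ2, h21, h22, h23, h24⟩ := exists_inv hψa hψd
  rw [hψc] at h21 h22 h24
  have hfc : Tendsto f (𝓝[≠] x0) (𝓝 c) := hf.continuous.continuousAt.tendsto.mono_left nhdsWithin_le_nhds
  -- the function `v`
  set v : ℝ → ℝ := fun x => ψ (f x) / (x - x0) ^ l with hv
  set v0 := u0 * W0 with hv0
  have hv0ne : v0 ≠ 0 := mul_ne_zero hu0ne hW0pos.ne'
  have hvt : Tendsto v (𝓝[≠] x0) (𝓝 v0) := by
    have h1 : Tendsto (fun x => W (f x)) (𝓝[≠] x0) (𝓝 W0) := by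
      rw [← hWc]
      exact hWa.continuousAt.tendsto.comp hfc
    refine (hfu.mul h1).congr fun x => ?_
    rw [hv, hψ]
    simp only
    ring
  -- the convergent series
  obtain ⟨G, hG⟩ := exists_G hrad x0
  have hflat := flat_sub hg hG
  set G0 : ℝ → ℝ := fun x => σ * (G x - h c) with hG0
  have hG0a : AnalyticAt ℝ G0 x0 := analyticAt_const.mul (hG.analyticAt.sub analyticAt_const)
  have hflat2 : Flat x0 (fun x => v x ^ m - G0 x / (x - x0) ^ (l * m)) := by
    have h1 : Flat x0 (fun x => (g x - G x) / (x - x0) ^ (l * m)) := hflat.div_pow _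
    refine h1.mono ?_
    have h2 : (fun x => v x ^ m - G0 x / (x - x0) ^ (l * m)) =ᶠ[𝓝[≠] x0]
        fun x => σ * ((g x - G x) / (x - x0) ^ (l * m)) := by
      filter_upwards [hfc.eventually hWm, hfc.eventually hwe, self_mem_nhdsWithin] with x hx1 hx2 hx3
      have hx' : (x - x0) ^ (l * m) ≠ 0 := pow_ne_zero _ (sub_ne_zero.2 hx3)
      have h3 : v x ^ m = σ * (h (f x) - h c) / (x - x0) ^ (l * m) := by
        rw [hv, hψ]
        simp only
        rw [div_pow, ← pow_mul, mul_pow, hx1, hx2, smul_eq_mul]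
        ring
      rw [h3, hG0, hgf]
      simp only [Function.comp]
      ring
    refine h2.isBigO.trans ?_
    exact (isBigO_refl _ _).const_mul_left σ
  have hlim : Tendsto (fun x => G0 x / (x - x0) ^ (l * m)) (𝓝[≠] x0) (𝓝 (v0 ^ m)) := by
    have h1 : Tendsto (fun x => v x ^ m - G0 x / (x - x0) ^ (l * m)) (𝓝[≠] x0) (𝓝 0) := by
      have h2 := hflat2 1
      refine h2.trans_tendsto ?_
      have : Tendsto (fun x : ℝ => (x - x0) ^ 1) (𝓝 x0) (𝓝 0) := by
        have := (by fun_prop : Continuous fun x : ℝ => (x - x0) ^ 1).tendsto x0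
        rwa [sub_self, pow_one] at this
      exact this.mono_left nhdsWithin_le_nhds
    have h3 := (hvt.pow m).sub h1
    rw [sub_zero] at h3
    refine h3.congr fun x => ?_
    ring
  have hyt : Tendsto (fun x : ℝ => x - x0) (𝓝[≠] x0) (𝓝 0) := by
    have := (by fun_prop : Continuous fun x : ℝ => x - x0).tendsto x0
    rw [sub_self] at this
    exact this.mono_left nhdsWithin_le_nhds
  obtain ⟨n, G1, hG1a, hG1ne, hG1e⟩ := hG0a.exists_eventuallyEq_pow_smul_nonzero_iff.2 (by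
    intro hcon
    have h1 : Tendsto (fun x => G0 x / (x - x0) ^ (l * m)) (𝓝[≠] x0) (𝓝 0) := by
      refine tendsto_const_nhds.congr' ?_
      filter_upwards [hcon.filter_mono nhdsWithin_le_nhds] with x hx
      rw [hx, zero_div]
    exact pow_ne_zero m hv0ne (tendsto_nhds_unique hlim h1))
  have hG1t : Tendsto G1 (𝓝[≠] x0) (𝓝 (G1 x0)) :=
    hG1a.continuousAt.tendsto.mono_left nhdsWithin_le_nhds
  have hG1e' : ∀ᶠ x in 𝓝[≠] x0, G0 x = (x - x0) ^ n * G1 x := by
    filter_upwards [hG1e.filter_mono nhdsWithin_le_nhds] with x hx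
    rw [hx, smul_eq_mul]
  have hn : n = l * m := by
    rcases lt_trichotomy n (l * m) with h1 | h1 | h1
    · exfalso
      have h2 : Tendsto G1 (𝓝[≠] x0) (𝓝 0) := by
        have h3 := hlim.mul (hyt.pow (l * m - n))
        rw [zero_pow (by omega), mul_zero] at h3
        refine h3.congr' ?_
        filter_upwards [hG1e', self_mem_nhdsWithin] with x hx1 hx2
        have hx' : x - x0 ≠ 0 := sub_ne_zero.2 hx2
        rw [hx1]
        have h4 : (x - x0) ^ (l * m) = (x - x0) ^ n * (x - x0) ^ (l * m - n) := by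
          rw [← pow_add]; congr 1; omega
        rw [h4]
        have h5 : (x - x0) ^ n ≠ 0 := pow_ne_zero _ hx'
        have h6 : (x - x0) ^ (l * m - n) ≠ 0 := pow_ne_zero _ hx'
        field_simp
      exact hG1ne (tendsto_nhds_unique hG1t h2)
    · exact h1
    · exfalso
      have h2 : Tendsto (fun x => G0 x / (x - x0) ^ (l * m)) (𝓝[≠] x0) (𝓝 0) := by
        have h3 := (hyt.pow (n - l * m)).mul hG1t
        rw [zero_pow (by omega), zero_mul] at h3
        refine h3.congr' ?_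
        filter_upwards [hG1e', self_mem_nhdsWithin] with x hx1 hx2
        have hx' : x - x0 ≠ 0 := sub_ne_zero.2 hx2
        rw [hx1]
        have h4 : (x - x0) ^ n = (x - x0) ^ (n - l * m) * (x - x0) ^ (l * m) := by
          rw [← pow_add]; congr 1; omega
        rw [h4]
        have h5 : (x - x0) ^ (l * m) ≠ 0 := pow_ne_zero _ hx'
        field_simp
      exact pow_ne_zero m hv0ne (tendsto_nhds_unique hlim h2)
  have hG1q : (fun x => G0 x / (x - x0) ^ (l * m)) =ᶠ[𝓝[≠] x0] G1 := by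
    filter_upwards [hG1e', self_mem_nhdsWithin] with x hx1 hx2
    have hx' : (x - x0) ^ (l * m) ≠ 0 := pow_ne_zero _ (sub_ne_zero.2 hx2)
    rw [hx1, hn]
    field_simp
  have hG1v : G1 x0 = v0 ^ m := tendsto_nhds_unique hG1t (hlim.congr' hG1q)
  obtain ⟨φ3, h31, h32, h33, h34⟩ := exists_root hv0ne hm
  set V : ℝ → ℝ := fun x => φ3 (G1 x) with hV
  have hVa : AnalyticAt ℝ V x0 := by
    rw [← hG1v] at h31
    exact AnalyticAt.fun_comp (g := φ3) (f := G1) h31 hG1a
  have hflat3 : Flat x0 (fun x => v x - V x) := by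
    refine hflat2.mono ?_
    have h1 := lip h31 (hvt.pow m) (by rw [← hG1v]; exact hG1t)
    have h2 : (fun x => v x - V x) =ᶠ[𝓝[≠] x0] fun x => φ3 (v x ^ m) - φ3 (G1 x) := by
      filter_upwards [hvt.eventually h33] with x hx
      rw [hx]
    have h3 : (fun x => v x ^ m - G1 x) =ᶠ[𝓝[≠] x0]
        fun x => v x ^ m - G0 x / (x - x0) ^ (l * m) := by
      filter_upwards [hG1q] with x hx
      rw [← hx]
    exact (h2.isBigO.trans h1).trans h3.isBigO
  set F : ℝ → ℝ := fun x => φ2 ((x - x0) ^ l * V x) with hF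
  have hin0 : (x0 - x0) ^ l * V x0 = 0 := by
    rw [sub_self, zero_pow (by omega), zero_mul]
  have hina : AnalyticAt ℝ (fun x : ℝ => (x - x0) ^ l * V x) x0 :=
    ((analyticAt_id.sub analyticAt_const).pow l).mul hVa
  have hFa : AnalyticAt ℝ F x0 :=
    AnalyticAt.fun_comp (g := φ2) (f := fun x : ℝ => (x - x0) ^ l * V x) (by rw [hin0]; exact h21) hina
  have hflat4 : Flat x0 (fun x => f x - F x) := by
    refine hflat3.mono ?_
    have h1 : Tendsto (fun x => ψ (f x)) (𝓝[≠] x0) (𝓝 0) := by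
      have := hψa.continuousAt.tendsto.comp hfc
      rw [hψc] at this
      exact this
    have h2 : Tendsto (fun x : ℝ => (x - x0) ^ l * V x) (𝓝[≠] x0) (𝓝 0) := by
      have := hina.continuousAt.tendsto.mono_left (nhdsWithin_le_nhds (s := {x0}ᶜ))
      simp only [hin0] at this
      exact this
    have h3 := lip h21 h1 h2
    have h4 : (fun x => f x - F x) =ᶠ[𝓝[≠] x0] fun x => φ2 (ψ (f x)) - φ2 ((x - x0) ^ l * V x) := by
      filter_upwards [hfc.eventually h23] with x hx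
      rw [hx]
    have h5 : (fun x => ψ (f x) - (x - x0) ^ l * V x) =ᶠ[𝓝[≠] x0]
        fun x => (x - x0) ^ l * (v x - V x) := by
      filter_upwards [self_mem_nhdsWithin] with x hx
      have hx' : (x - x0) ^ l ≠ 0 := pow_ne_zero _ (sub_ne_zero.2 hx)
      rw [hv]
      field_simp
    have h6 : (fun x : ℝ => (x - x0) ^ l * (v x - V x)) =O[𝓝[≠] x0] fun x => v x - V x := by
      have h7 : (fun x : ℝ => (x - x0) ^ l) =O[𝓝[≠] x0] fun _ => (1 : ℝ) :=
        (hyt.pow l).isBigO_one ℝ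
      simpa using h7.mul (isBigO_refl (fun x => v x - V x) (𝓝[≠] x0))
    exact ((h4.isBigO.trans h3).trans h5.isBigO).trans h6
  have hjets := jets_eq hf hFa hflat4
  have h1 : (fun n : ℕ => iteratedDeriv n f x0 / (n.factorial : ℝ)) =
      fun n : ℕ => iteratedDeriv n F x0 / (n.factorial : ℝ) := by
    funext n
    rw [hjets n]
  rw [h1]
  exact hFa.hasFPowerSeriesAt.radius_pos

end Pool.Agent.H451R3.PS
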