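import Mathlib

/-!
Lacunary cosine series with very fast frequencies: derivatives and lower bounds.
-/

set_option autoImplicit false

open Filter Topology Finset

namespace Pool.Agent.H451R3.PS

/-- very fast increasing frequencies, chosen after a given sequence of majorants -/
noncomputable def lam (M : ℕ → ℝ) (k : ℕ) : ℝ :=
  max (8 * 2 ^ k) ((k + 1) * ((∑ i : Fin k, (lam M i) ^ (2 * k + 3)) + M k + 2 +
    ((2 * k + 3).factorial : ℝ) ^ 2))
termination_by k
decreasing_by exact i.2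

variable (M : ℕ → ℝ)

lemma lam_ge (k : ℕ) : 8 * 2 ^ k ≤ lam M k := by
  rw [lam]
  exact le_max_left _ _

lemma lam_ge' (k : ℕ) : ((k : ℝ) + 1) * ((∑ i ∈ range k, (lam M i) ^ (2 * k + 3)) + M k + 2 +
    ((2 * k + 3).factorial : ℝ) ^ 2) ≤ lam M k := by
  rw [← Fin.sum_univ_eq_sum_range (fun i => (lam M i) ^ (2 * k + 3)) k]
  conv_rhs => rw [lam]
  exact le_max_right _ _

lemma lam_ge_one (k : ℕ) : 1 ≤ lam M k := by
  have h := lam_ge M k
  have h2 : (1 : ℝ) ≤ 2 ^ k := one_le_pow₀ (by norm_num)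
  linarith

lemma lam_pos (k : ℕ) : 0 < lam M k := lt_of_lt_of_le one_pos (lam_ge_one M k)

lemma inv_lam_le (k : ℕ) : (lam M k)⁻¹ ≤ (1 / 8) * (1 / 2) ^ k := by
  have h := lam_ge M k
  have h2 : (0 : ℝ) < 8 * 2 ^ k := by positivity
  have h3 := inv_anti₀ h2 h
  refine h3.trans (le_of_eq ?_)
  rw [mul_inv, one_div, one_div, inv_pow]

/-- the size of the `n`-th derivative of the `i`-th term -/
noncomputable def bb (i n : ℕ) : ℝ := (lam M i) ^ n / (lam M i) ^ (2 * i + 1)

/-- the `n`-th derivative of the `i`-th term -/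
noncomputable def ww (i n : ℕ) (x : ℝ) : ℝ := bb M i n * Real.cos (lam M i * x + n * (Real.pi / 2))

lemma bb_pos (i n : ℕ) : 0 < bb M i n := by
  unfold bb
  have := lam_pos M i
  positivity

lemma abs_ww_le (i n : ℕ) (x : ℝ) : |ww M i n x| ≤ bb M i n := by
  unfold ww
  rw [abs_mul, abs_of_pos (bb_pos M i n)]
  have := Real.abs_cos_le_one (lam M i * x + n * (Real.pi / 2))
  have h2 := bb_pos M i n
  nlinarith

lemma bb_le_pow (i n : ℕ) : bb M i n ≤ (lam M i) ^ n := by
  unfold bb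
  apply div_le_self
  · exact pow_nonneg (lam_pos M i).le _
  · exact one_le_pow₀ (lam_ge_one M i)

lemma bb_small (i n : ℕ) (h : n ≤ 2 * i) : bb M i n ≤ (1 / 8) * (1 / 2) ^ i := by
  refine le_trans ?_ (inv_lam_le M i)
  unfold bb
  rw [div_le_iff₀ (by have := lam_pos M i; positivity), pow_succ, mul_comm ((lam M i) ^ (2 * i)),
    ← mul_assoc, inv_mul_cancel₀ (lam_pos M i).ne', one_mul]
  exact pow_le_pow_right₀ (lam_ge_one M i) h

lemma bb_le_one (i n : ℕ) (h : n ≤ 2 * i + 1) : bb M i n ≤ 1 := by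
  unfold bb
  rw [div_le_one (by have := lam_pos M i; positivity)]
  exact pow_le_pow_right₀ (lam_ge_one M i) h

lemma bb_main (k : ℕ) : bb M k (2 * k + 2) = lam M k := by
  unfold bb
  have := (lam_pos M k).ne'
  rw [div_eq_iff (by positivity)]
  ring

lemma bb_main' (k : ℕ) : lam M k ≤ bb M k (2 * k + 3) := by
  have h1 : bb M k (2 * k + 3) = (lam M k) ^ 2 := by
    unfold bb
    have := (lam_pos M k).ne'
    rw [div_eq_iff (by positivity)]
    ring
  rw [h1]
  nlinarith [lam_ge_one M k]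

lemma tail_le (k n i : ℕ) (h : n ≤ 2 * k + 3) : bb M (i + (k + 1)) n ≤ (1 / 2) ^ i := by
  rcases Nat.eq_zero_or_pos i with hi | hi
  · subst hi
    simp only [pow_zero]
    exact bb_le_one M _ _ (by omega)
  · refine (bb_small M _ _ (by omega)).trans ?_
    have h1 : ((1 : ℝ) / 2) ^ (i + (k + 1)) ≤ (1 / 2) ^ i :=
      pow_le_pow_of_le_one (by norm_num) (by norm_num) (by omega)
    have h2 : (0 : ℝ) ≤ (1 / 2) ^ i := by positivity
    linarith

lemma summable_half : Summable (fun i : ℕ => ((1 : ℝ) / 2) ^ i) :=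
  summable_geometric_of_lt_one (by norm_num) (by norm_num)

lemma summable_bb (n : ℕ) : Summable (fun i => bb M i n) := by
  rw [← summable_nat_add_iff (n + 1)]
  refine Summable.of_nonneg_of_le (fun i => (bb_pos M _ _).le) (fun i => ?_) summable_half
  exact tail_le M n n i (by omega)

variable {E : Type*} [NormedAddCommGroup E] [NormedSpace ℝ E]

/-- the `n`-th derivative of the series -/
noncomputable def TT (c : ℕ → E) (n : ℕ) (x : ℝ) : E := ∑' i, ww M i n x • c i

lemma norm_term_le {c : ℕ → E} {C : ℝ} (hc : ∀ i, ‖c i‖ ≤ C) (i n : ℕ) (x : ℝ) :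
    ‖ww M i n x • c i‖ ≤ bb M i n * C := by
  rw [norm_smul, Real.norm_eq_abs]
  exact mul_le_mul (abs_ww_le M i n x) (hc i) (norm_nonneg _) (bb_pos M i n).le

variable [CompleteSpace E]

lemma summable_term {c : ℕ → E} {C : ℝ} (hc : ∀ i, ‖c i‖ ≤ C) (n : ℕ) (x : ℝ) :
    Summable (fun i => ww M i n x • c i) :=
  Summable.of_norm_bounded ((summable_bb M n).mul_right C) (fun i => norm_term_le M hc i n x)

lemma hasDerivAt_ww (i n : ℕ) (x : ℝ) : HasDerivAt (fun x => ww M i n x) (ww M i (n + 1) x) x := by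
  unfold ww
  have h1 : HasDerivAt (fun x : ℝ => lam M i * x + n * (Real.pi / 2)) (lam M i) x := by
    simpa using ((hasDerivAt_id x).const_mul (lam M i)).add_const (n * (Real.pi / 2))
  have h2 := (h1.cos).const_mul (bb M i n)
  refine h2.congr_deriv ?_
  have h3 : Real.cos (lam M i * x + ((n + 1 : ℕ) : ℝ) * (Real.pi / 2)) =
      -Real.sin (lam M i * x + n * (Real.pi / 2)) := by
    rw [← Real.cos_add_pi_div_two]
    congr 1
    push_cast
    ring
  rw [h3]
  have h4 : bb M i (n + 1) = bb M i n * lam M i := by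
    unfold bb
    rw [pow_succ]
    ring
  rw [h4]
  ring

lemma hasDerivAt_TT {c : ℕ → E} {C : ℝ} (hc : ∀ i, ‖c i‖ ≤ C) (n : ℕ) (x : ℝ) :
    HasDerivAt (fun x => TT M c n x) (TT M c (n + 1) x) x := by
  unfold TT
  exact hasDerivAt_tsum ((summable_bb M (n + 1)).mul_right C)
    (fun i y => (hasDerivAt_ww M i n y).smul_const (c i))
    (fun i y => norm_term_le M hc i (n + 1) y) (summable_term M hc n x) x

lemma iteratedDeriv_TT {c : ℕ → E} {C : ℝ} (hc : ∀ i, ‖c i‖ ≤ C) (n : ℕ) :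
    iteratedDeriv n (TT M c 0) = TT M c n := by
  induction n with
  | zero => simp
  | succ n ih =>
    rw [iteratedDeriv_succ, ih]
    funext x
    exact (hasDerivAt_TT M hc n x).deriv

lemma contDiff_TT {c : ℕ → E} {C : ℝ} (hc : ∀ i, ‖c i‖ ≤ C) :
    ContDiff ℝ (⊤ : ℕ∞) (TT M c 0) := by
  apply contDiff_of_differentiable_iteratedDeriv
  intro m _
  rw [iteratedDeriv_TT M hc]
  exact fun x => (hasDerivAt_TT M hc m x).differentiableAt

/-- one of two consecutive derivatives of the main term is large -/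
lemma main_large (k : ℕ) (x : ℝ) : ∃ n, (n = 2 * k + 2 ∨ n = 2 * k + 3) ∧
    (7 / 10) * lam M k ≤ |ww M k n x| := by
  set y := lam M k * x + ((2 * k + 2 : ℕ) : ℝ) * (Real.pi / 2) with hy
  have h1 : lam M k * x + ((2 * k + 3 : ℕ) : ℝ) * (Real.pi / 2) = y + Real.pi / 2 := by
    rw [hy]; push_cast; ring
  have h0 := lam_pos M k
  by_cases h : 7 / 10 ≤ |Real.cos y|
  · refine ⟨2 * k + 2, Or.inl rfl, ?_⟩
    unfold ww
    rw [bb_main, abs_mul, abs_of_pos h0, mul_comm]
    exact mul_le_mul_of_nonneg_left h h0.le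
  · refine ⟨2 * k + 3, Or.inr rfl, ?_⟩
    unfold ww
    rw [h1, abs_mul, abs_of_pos (bb_pos M _ _), Real.cos_add_pi_div_two, abs_neg, mul_comm]
    push Not at h
    have h2 : 7 / 10 ≤ |Real.sin y| := by
      by_contra h3
      push Not at h3
      have h4 := Real.sin_sq_add_cos_sq y
      have h5 := abs_nonneg (Real.sin y)
      have h6 := abs_nonneg (Real.cos y)
      rw [← sq_abs (Real.sin y), ← sq_abs (Real.cos y)] at h4
      nlinarith
    exact mul_le_mul (bb_main' M k) h2 (by norm_num) (bb_pos M _ _).le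

/-- lower bound for the derivatives of the series -/
lemma TT_lower {c : ℕ → E} {C : ℝ} (hc : ∀ i, ‖c i‖ ≤ C) (k n : ℕ) (hn : n ≤ 2 * k + 3) (x : ℝ) :
    |ww M k n x| * ‖c k‖ - C * ((∑ i ∈ range k, (lam M i) ^ (2 * k + 3)) + 2) ≤ ‖TT M c n x‖ := by
  have hC : 0 ≤ C := (norm_nonneg _).trans (hc 0)
  have h1 := (summable_term M hc n x).sum_add_tsum_nat_add (k + 1)
  rw [sum_range_succ] at h1
  have h2 : ‖∑ i ∈ range k, ww M i n x • c i‖ ≤ C * ∑ i ∈ range k, (lam M i) ^ (2 * k + 3) := by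
    rw [mul_sum]
    refine (norm_sum_le _ _).trans (sum_le_sum fun i _ => ?_)
    refine (norm_term_le M hc i n x).trans ?_
    rw [mul_comm]
    apply mul_le_mul_of_nonneg_left _ hC
    exact (bb_le_pow M i n).trans (pow_le_pow_right₀ (lam_ge_one M i) hn)
  have h3 : ‖∑' i, ww M (i + (k + 1)) n x • c (i + (k + 1))‖ ≤ C * 2 := by
    have h4 : ∑' i : ℕ, C * ((1 : ℝ) / 2) ^ i = C * 2 := by
      rw [tsum_mul_left, tsum_geometric_of_lt_one (by norm_num) (by norm_num)]
      norm_num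
    rw [← h4]
    apply tsum_of_norm_bounded ((summable_half.mul_left C).hasSum)
    intro i
    refine (norm_term_le M hc _ n x).trans ?_
    rw [mul_comm]
    exact mul_le_mul_of_nonneg_left (tail_le M k n i hn) hC
  unfold TT
  rw [← h1]
  set A := ∑ i ∈ range k, ww M i n x • c i
  set D := ∑' i, ww M (i + (k + 1)) n x • c (i + (k + 1))
  have h5 : |ww M k n x| * ‖c k‖ = ‖ww M k n x • c k‖ := by
    rw [norm_smul, Real.norm_eq_abs]
  have h6 : ww M k n x • c k = (A + ww M k n x • c k + D) - A - D := by abel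
  have h7 : ‖ww M k n x • c k‖ ≤ ‖A + ww M k n x • c k + D‖ + ‖A‖ + ‖D‖ := by
    conv_lhs => rw [h6]
    exact (norm_sub_le _ _).trans (by linarith [norm_sub_le (A + ww M k n x • c k + D) A])
  rw [h5]
  linarith

end Pool.Agent.H451R3.PS
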