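import Mathlib
import Pool.Agent.H451R3.Sing

/-!
Disjoint bumps accumulating at `0`.
-/

set_option autoImplicit false

open Filter Topology Finset

namespace Pool.Agent.H451R3.PS

/-- the `j`-th bump -/
noncomputable def vv (j : ℕ) : ContDiffBump (3 * (1 / 2 : ℝ) ^ (j + 2)) where
  rIn := (1 / 2 : ℝ) ^ (j + 4)
  rOut := (1 / 2 : ℝ) ^ (j + 3)
  rIn_pos := by positivity
  rIn_lt_rOut := by
    have h : (0 : ℝ) < (1 / 2) ^ (j + 3) := by positivity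
    calc (1 / 2 : ℝ) ^ (j + 4) = (1 / 2) ^ (j + 3) * (1 / 2) := by ring
      _ < _ := by linarith

lemma vv_supp {j : ℕ} {y : ℝ} (h : vv j y ≠ 0) :
    5 * (1 / 2 : ℝ) ^ (j + 3) < y ∧ y < 7 * (1 / 2 : ℝ) ^ (j + 3) := by
  have h1 : y ∈ Function.support (vv j) := h
  rw [(vv j).support_eq, Metric.mem_ball, Real.dist_eq] at h1
  have h2 : (vv j).rOut = (1 / 2 : ℝ) ^ (j + 3) := rfl
  rw [h2, abs_lt] at h1
  have h3 : (1 / 2 : ℝ) ^ (j + 2) = 2 * (1 / 2) ^ (j + 3) := by ring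
  rw [h3] at h1
  constructor <;> linarith [h1.1, h1.2]

lemma half_pow_le {i j : ℕ} (h : i ≤ j) : (1 / 2 : ℝ) ^ j ≤ (1 / 2) ^ i :=
  pow_le_pow_of_le_one (by norm_num) (by norm_num) h

lemma half_pow_pos (i : ℕ) : (0 : ℝ) < (1 / 2) ^ i := by positivity

lemma vv_unique {i j : ℕ} {y : ℝ} (hi : vv i y ≠ 0) (hj : vv j y ≠ 0) : i = j := by
  by_contra hne
  wlog hlt : i < j generalizing i j
  · exact this hj hi (Ne.symm hne) (by omega)
  have h1 := (vv_supp hi).1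
  have h2 := (vv_supp hj).2
  have h3 : (1 / 2 : ℝ) ^ (j + 3) ≤ (1 / 2) ^ (i + 4) := half_pow_le (by omega)
  have h4 : (1 / 2 : ℝ) ^ (i + 4) = (1 / 2) ^ (i + 3) / 2 := by ring
  have h5 := half_pow_pos (i + 3)
  linarith

lemma vv_zero_of_ge {J j : ℕ} (h : J ≤ j) {y : ℝ} (hy : (1 / 2 : ℝ) ^ J ≤ y) : vv j y = 0 := by
  by_contra hne
  have h1 := (vv_supp hne).2
  have h2 : (1 / 2 : ℝ) ^ (j + 3) ≤ (1 / 2) ^ (J + 3) := half_pow_le (by omega)
  have h3 : (1 / 2 : ℝ) ^ (J + 3) = (1 / 2) ^ J / 8 := by ring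
  have h4 := half_pow_pos J
  linarith

lemma vv_nonpos (j : ℕ) {y : ℝ} (hy : y ≤ 0) : vv j y = 0 := by
  by_contra hne
  have h1 := (vv_supp hne).1
  have h2 := half_pow_pos (j + 3)
  linarith

lemma vv_center (j : ℕ) : vv j (3 * (1 / 2 : ℝ) ^ (j + 2)) = 1 := by
  apply (vv j).one_of_mem_closedBall
  rw [Metric.mem_closedBall, dist_self]
  exact (vv j).rIn_pos.le

lemma center_mem (j : ℕ) : (3 * (1 / 2 : ℝ) ^ (j + 2)) ∈ Set.Icc (0 : ℝ) 1 := by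
  have h1 := half_pow_pos (j + 2)
  have h2 : (1 / 2 : ℝ) ^ (j + 2) ≤ (1 / 2) ^ 2 := half_pow_le (by omega)
  constructor
  · linarith
  · norm_num at h2 ⊢
    linarith

/-- near `(1/2)^m` all bumps vanish -/
lemma vv_gap (m : ℕ) : ∀ᶠ y in 𝓝 ((1 / 2 : ℝ) ^ m), ∀ j, vv j y = 0 := by
  have h0 := half_pow_pos m
  have hmem : Set.Ioo (7 / 8 * (1 / 2 : ℝ) ^ m) (5 / 4 * (1 / 2 : ℝ) ^ m) ∈ 𝓝 ((1 / 2 : ℝ) ^ m) :=
    Ioo_mem_nhds (by linarith) (by linarith)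
  filter_upwards [hmem] with y hy j
  by_contra hne
  obtain ⟨h1, h2⟩ := vv_supp hne
  obtain ⟨h3, h4⟩ := hy
  rcases Nat.lt_or_ge j m with h | h
  · have h5 : (1 / 2 : ℝ) ^ (m + 2) ≤ (1 / 2) ^ (j + 3) := half_pow_le (by omega)
    have h6 : (1 / 2 : ℝ) ^ (m + 2) = (1 / 2) ^ m / 4 := by ring
    linarith
  · have h5 : (1 / 2 : ℝ) ^ (j + 3) ≤ (1 / 2) ^ (m + 3) := half_pow_le (by omega)
    have h6 : (1 / 2 : ℝ) ^ (m + 3) = (1 / 2) ^ m / 8 := by ring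
    linarith

lemma exists_KK (j n : ℕ) : ∃ C : ℝ, 0 ≤ C ∧ ∀ x ∈ Set.Icc (0 : ℝ) 1, |iteratedDeriv n (vv j) x| ≤ C := by
  have hc : Continuous (iteratedDeriv n (vv j)) :=
    ((vv j).contDiff (n := (⊤ : ℕ∞))).continuous_iteratedDeriv n (by exact_mod_cast le_top)
  obtain ⟨C, hC⟩ := (isCompact_Icc (a := (0 : ℝ)) (b := 1)).exists_bound_of_continuousOn hc.continuousOn
  exact ⟨C, (norm_nonneg _).trans (hC 0 (by norm_num)), fun x hx => hC x hx⟩

/-- bounds for the derivatives of the bumps -/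
noncomputable def KK (j n : ℕ) : ℝ := (exists_KK j n).choose

lemma KK_nonneg (j n : ℕ) : 0 ≤ KK j n := (exists_KK j n).choose_spec.1

lemma KK_spec (j n : ℕ) {x : ℝ} (hx : x ∈ Set.Icc (0 : ℝ) 1) : |iteratedDeriv n (vv j) x| ≤ KK j n :=
  (exists_KK j n).choose_spec.2 x hx

/-- the majorants -/
noncomputable def MM (k : ℕ) : ℝ := ∑ j ∈ range k, ∑ n ∈ range (2 * k + 4), KK j n

lemma sum_KK_le {J k n : ℕ} (hJ : J ≤ k) (hn : n ≤ 2 * k + 3) : ∑ j ∈ range J, KK j n ≤ MM k := by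
  unfold MM
  calc ∑ j ∈ range J, KK j n ≤ ∑ j ∈ range k, KK j n :=
        sum_le_sum_of_subset_of_nonneg (range_subset_range.2 hJ) (fun j _ _ => KK_nonneg j n)
    _ ≤ _ := sum_le_sum fun j _ =>
        single_le_sum (f := fun n => KK j n) (fun i _ => KK_nonneg j i) (mem_range.2 (by omega))

variable {𝕜 : Type*} [RCLike 𝕜]

/-- the sum of bumps -/
noncomputable def BB (c : ℕ → 𝕜) (y : ℝ) : 𝕜 := ∑' j, (vv j y) • c j

lemma summable_BB (c : ℕ → 𝕜) (y : ℝ) : Summable (fun j => (vv j y) • c j) := by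
  rcases le_or_gt y 0 with hy | hy
  · have : (fun j => (vv j y) • c j) = fun _ => (0 : 𝕜) := by
      funext j
      rw [vv_nonpos j hy, zero_smul]
    rw [this]
    exact summable_zero
  · obtain ⟨J, hJ⟩ := exists_pow_lt_of_lt_one hy (by norm_num : (1 / 2 : ℝ) < 1)
    apply summable_of_ne_finset_zero (s := range J)
    intro j hj
    rw [vv_zero_of_ge (not_lt.1 fun h => hj (mem_range.2 h)) hJ.le, zero_smul]

lemma BB_eq_sum (c : ℕ → 𝕜) {J : ℕ} {y : ℝ} (hy : (1 / 2 : ℝ) ^ J ≤ y) :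
    BB c y = ∑ j ∈ range J, (vv j y) • c j := by
  unfold BB
  apply tsum_eq_sum
  intro j hj
  rw [vv_zero_of_ge (not_lt.1 fun h => hj (mem_range.2 h)) hy, zero_smul]

lemma BB_center (c : ℕ → 𝕜) (j : ℕ) : BB c (3 * (1 / 2 : ℝ) ^ (j + 2)) = c j := by
  unfold BB
  rw [tsum_eq_single j, vv_center, one_smul]
  intro i hi
  have : vv i (3 * (1 / 2 : ℝ) ^ (j + 2)) = 0 := by
    by_contra hne
    exact hi (vv_unique hne (by rw [vv_center]; exact one_ne_zero))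
  rw [this, zero_smul]

lemma norm_BB_le {c : ℕ → 𝕜} {C : ℝ} (hc : ∀ i, ‖c i‖ ≤ C) (y : ℝ) : ‖BB c y‖ ≤ C := by
  have hC : 0 ≤ C := (norm_nonneg _).trans (hc 0)
  by_cases h : ∃ j, vv j y ≠ 0
  · obtain ⟨j, hj⟩ := h
    unfold BB
    rw [tsum_eq_single j]
    · rw [norm_smul, Real.norm_eq_abs, abs_of_nonneg (vv j).nonneg]
      calc (vv j y) * ‖c j‖ ≤ 1 * C := mul_le_mul (vv j).le_one (hc j) (norm_nonneg _) zero_le_one
        _ = C := one_mul C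
    · intro i hi
      have : vv i y = 0 := by
        by_contra hne
        exact hi (vv_unique hne hj)
      rw [this, zero_smul]
  · push Not at h
    have : BB c y = 0 := by
      unfold BB
      simp [h]
    rw [this, norm_zero]
    exact hC

end Pool.Agent.H451R3.PS
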