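import Mathlib

/-!
The smooth functions on `[0,1]`, their Fréchet topology, and the radius of convergence of Taylor
series.
-/

set_option autoImplicit false

namespace Pool.Agent.H451R3.PS

/-- the interval `[0,1]` -/
abbrev I : Set ℝ := Set.Icc (0 : ℝ) 1

/-- extension of a function on `[0,1]` to the real line, constant on both sides -/
noncomputable def ext {𝕜 : Type*} (f : I → 𝕜) : ℝ → 𝕜 := Set.IccExtend (zero_le_one' ℝ) f

section Defs

variable (𝕜 : Type*) [RCLike 𝕜]

/-- the space of infinitely differentiable functions on `[0,1]` (one-sided derivatives at the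
endpoints) -/
noncomputable def CInf : Submodule 𝕜 (I → 𝕜) where
  carrier := {f | ContDiffOn ℝ (⊤ : ℕ∞) (ext f) I}
  add_mem' {f g} hf hg := by
    change ContDiffOn ℝ (⊤ : ℕ∞) (ext (f + g)) I
    exact ContDiffOn.add hf hg
  zero_mem' := by
    change ContDiffOn ℝ (⊤ : ℕ∞) (ext 0) I
    exact contDiffOn_const (c := (0 : 𝕜))
  smul_mem' a f hf := by
    change ContDiffOn ℝ (⊤ : ℕ∞) (ext (a • f)) I
    exact ContDiffOn.const_smul a hf

variable {𝕜}

/-- the `n`-th derivative of a smooth function on `[0,1]`, one-sided at the endpoints -/
noncomputable def deriv' (n : ℕ) (f : CInf 𝕜) : C(I, 𝕜) where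
  toFun x := iteratedDerivWithin n (ext f.1) I x
  continuous_toFun := by
    have h : ContinuousOn (iteratedDerivWithin n (ext f.1) I) I :=
      ContDiffOn.continuousOn_iteratedDerivWithin f.2 (by exact_mod_cast le_top)
        (uniqueDiffOn_Icc (zero_lt_one' ℝ))
    exact continuousOn_iff_continuous_domRestrict.1 h

variable (𝕜) in
/-- the Fréchet topology of the space of smooth functions: uniform convergence of every derivative
(`C(I, 𝕜)` carries the topology of uniform convergence) -/
@[reducible] noncomputable def frechet : TopologicalSpace (CInf 𝕜) :=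
  TopologicalSpace.induced (fun f (n : ℕ) => deriv' n f) inferInstance

/-- the radius of convergence of the Taylor series at `x` -/
noncomputable def rho (f : CInf 𝕜) (x : I) : ENNReal :=
  (FormalMultilinearSeries.ofScalars 𝕜 (fun n : ℕ => deriv' n f x / (n.factorial : 𝕜))).radius

end Defs

end Pool.Agent.H451R3.PS
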