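import Mathlib
import Pool.Agent.H451R3.Bump
import Pool.Agent.H451R3.Defs

/-!
The linear operator `c ↦ BB c + TT (c ∘ J) 0`.
-/

set_option autoImplicit false

open Filter Topology Finset

namespace Pool.Agent.H451R3.PS

section Radius

variable {𝕜 : Type*} [RCLike 𝕜]

/-- large derivatives give radius of convergence zero -/
lemma radius_zero (g : ℕ → 𝕜) (δ : ℝ) (hδ : 0 < δ)
    (h : ∀ N : ℕ, ∃ n ≥ N, δ * ((n.factorial : ℝ)) ^ 2 ≤ ‖g n‖) :
    (FormalMultilinearSeries.ofScalars 𝕜 (fun n : ℕ => g n / (n.factorial : 𝕜))).radius = 0 := by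
  by_contra hne
  have hpos : 0 < (FormalMultilinearSeries.ofScalars 𝕜 (fun n : ℕ => g n / (n.factorial : 𝕜))).radius :=
    pos_iff_ne_zero.2 hne
  obtain ⟨r, hr0, hr⟩ := ENNReal.lt_iff_exists_nnreal_btwn.1 hpos
  obtain ⟨C, hC, hb⟩ := FormalMultilinearSeries.norm_mul_pow_le_of_lt_radius _ hr
  have hr0' : (0 : ℝ) < r := by exact_mod_cast hr0
  have hlim := FloorSemiring.tendsto_pow_div_factorial_atTop ((r : ℝ)⁻¹)
  have hev := (hlim.const_mul C).eventually (gt_mem_nhds (show C * 0 < δ by rw [mul_zero]; exact hδ))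
  obtain ⟨N, hN⟩ := eventually_atTop.1 hev
  obtain ⟨n, hn, hgn⟩ := h N
  have h1 := hN n hn
  have h2 := hb n
  rw [FormalMultilinearSeries.ofScalars_norm, norm_div, RCLike.norm_natCast] at h2
  have hf : (0 : ℝ) < (n.factorial : ℝ) := by exact_mod_cast n.factorial_pos
  have h3 : δ * (n.factorial : ℝ) ≤ ‖g n‖ / (n.factorial : ℝ) := by
    rw [le_div_iff₀ hf]
    calc δ * (n.factorial : ℝ) * (n.factorial : ℝ) = δ * (n.factorial : ℝ) ^ 2 := by ring
      _ ≤ _ := hgn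
  have h4 : δ * (n.factorial : ℝ) * (r : ℝ) ^ n ≤ C :=
    (mul_le_mul_of_nonneg_right h3 (by positivity)).trans h2
  have h5 : C * (((r : ℝ)⁻¹) ^ n / (n.factorial : ℝ)) < δ := h1
  have h6 : 0 < (r : ℝ) ^ n := by positivity
  rw [inv_pow, inv_eq_one_div, div_div, mul_one_div, div_lt_iff₀ (by positivity)] at h5
  nlinarith

end Radius

section Op

variable {𝕜 : Type*} [RCLike 𝕜]

/-- every index is taken infinitely often -/
def JJ (k : ℕ) : ℕ := (Nat.unpair k).1

lemma JJ_inf (j N : ℕ) : ∃ k ≥ N, JJ k = j := by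
  refine ⟨Nat.pair j N, Nat.right_le_pair j N, ?_⟩
  unfold JJ
  rw [Nat.unpair_pair]

/-- the function with coefficients `c` -/
noncomputable def LL (c : ℕ → 𝕜) (y : ℝ) : 𝕜 := BB c y + TT MM (fun k => c (JJ k)) 0 y

lemma norm_TT_zero_le {c : ℕ → 𝕜} {C : ℝ} (hc : ∀ i, ‖c i‖ ≤ C) (y : ℝ) :
    ‖TT MM (fun k => c (JJ k)) 0 y‖ ≤ C / 4 := by
  have hC : 0 ≤ C := (norm_nonneg _).trans (hc 0)
  have h4 : ∑' i : ℕ, (C / 8) * ((1 : ℝ) / 2) ^ i = C / 4 := by
    rw [tsum_mul_left, tsum_geometric_of_lt_one (by norm_num) (by norm_num)]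
    ring
  rw [← h4]
  unfold TT
  apply tsum_of_norm_bounded ((summable_half.mul_left (C / 8)).hasSum)
  intro i
  refine (norm_term_le MM (fun k => hc (JJ k)) i 0 y).trans ?_
  have := bb_small MM i 0 (by omega)
  calc bb MM i 0 * C ≤ ((1 / 8) * (1 / 2) ^ i) * C := mul_le_mul_of_nonneg_right this hC
    _ = _ := by ring

lemma norm_LL_le {c : ℕ → 𝕜} {C : ℝ} (hc : ∀ i, ‖c i‖ ≤ C) (y : ℝ) : ‖LL c y‖ ≤ 2 * C := by
  have hC : 0 ≤ C := (norm_nonneg _).trans (hc 0)
  unfold LL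
  refine (norm_add_le _ _).trans ?_
  have h1 := norm_BB_le hc y
  have h2 := norm_TT_zero_le hc y
  linarith

/-- the coefficients are bounded by the values of the function on `[0,1]` -/
lemma coeff_le {c : ℕ → 𝕜} {C : ℝ} (hc : ∀ i, ‖c i‖ ≤ C) {D : ℝ}
    (hD : ∀ y ∈ I, ‖LL c y‖ ≤ D) (j : ℕ) : ‖c j‖ ≤ 2 * D := by
  have hbdd : BddAbove (Set.range fun i => ‖c i‖) := ⟨C, by rintro _ ⟨i, rfl⟩; exact hc i⟩
  set S := ⨆ i, ‖c i‖ with hS
  have hcS : ∀ i, ‖c i‖ ≤ S := fun i => le_ciSup hbdd i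
  have hD0 : 0 ≤ D := (norm_nonneg _).trans (hD 0 (by norm_num))
  have h1 : ∀ i, ‖c i‖ ≤ D + S / 4 := by
    intro i
    have h2 : c i = LL c (3 * (1 / 2 : ℝ) ^ (i + 2)) -
        TT MM (fun k => c (JJ k)) 0 (3 * (1 / 2 : ℝ) ^ (i + 2)) := by
      unfold LL
      rw [BB_center]
      ring
    rw [h2]
    exact (norm_sub_le _ _).trans (add_le_add (hD _ (center_mem i)) (norm_TT_zero_le hcS _))
  have h3 : S ≤ D + S / 4 := ciSup_le h1
  have := hcS j
  linarith

/-- bounded sequences -/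
abbrev Bd (𝕜 : Type*) [RCLike 𝕜] : Type _ := BoundedContinuousFunction ℕ 𝕜

lemma Bd_le (c : Bd 𝕜) (i : ℕ) : ‖c i‖ ≤ ‖c‖ := c.norm_coe_le_norm i

/-- the operator as a linear map -/
noncomputable def Lam : Bd 𝕜 →ₗ[𝕜] (I → 𝕜) where
  toFun c x := LL (c : ℕ → 𝕜) x
  map_add' c d := by
    funext x
    simp only [LL, BB, TT, Pi.add_apply, BoundedContinuousFunction.coe_add]
    have h1 : ∑' j, (vv j (x : ℝ)) • (c j + d j) =
        ∑' j, (vv j (x : ℝ)) • c j + ∑' j, (vv j (x : ℝ)) • d j := by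
      rw [← (summable_BB (c : ℕ → 𝕜) x).tsum_add (summable_BB (d : ℕ → 𝕜) x)]
      congr 1
      funext j
      rw [smul_add]
    have h2 : ∑' i, ww MM i 0 (x : ℝ) • (c (JJ i) + d (JJ i)) =
        ∑' i, ww MM i 0 (x : ℝ) • c (JJ i) + ∑' i, ww MM i 0 (x : ℝ) • d (JJ i) := by
      rw [← (summable_term MM (fun k => Bd_le c (JJ k)) 0 x).tsum_add
        (summable_term MM (fun k => Bd_le d (JJ k)) 0 x)]
      congr 1
      funext j
      rw [smul_add]
    rw [h1, h2]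
    ring
  map_smul' a c := by
    funext x
    simp only [LL, BB, TT, RingHom.id_apply, Pi.smul_apply, BoundedContinuousFunction.coe_smul,
      smul_eq_mul]
    have h1 : ∑' j, (vv j (x : ℝ)) • (a * c j) = a * ∑' j, (vv j (x : ℝ)) • c j := by
      rw [← tsum_mul_left]
      congr 1
      funext j
      rw [mul_smul_comm]
    have h2 : ∑' i, ww MM i 0 (x : ℝ) • (a * c (JJ i)) = a * ∑' i, ww MM i 0 (x : ℝ) • c (JJ i) := by
      rw [← tsum_mul_left]
      congr 1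
      funext j
      rw [mul_smul_comm]
    rw [h1, h2]
    ring

lemma Lam_apply (c : Bd 𝕜) (x : I) : Lam c x = LL (c : ℕ → 𝕜) x := rfl

lemma norm_le_of_Lam (c : Bd 𝕜) {D : ℝ} (hD : ∀ x : I, ‖Lam c x‖ ≤ D) : ‖c‖ ≤ 2 * D := by
  have hD0 : 0 ≤ D := (norm_nonneg _).trans (hD ⟨0, by norm_num⟩)
  rw [BoundedContinuousFunction.norm_le (by linarith)]
  exact coeff_le (Bd_le c) (fun y hy => hD ⟨y, hy⟩)

lemma Lam_injective : Function.Injective (Lam (𝕜 := 𝕜)) := by
  rw [← LinearMap.ker_eq_bot, LinearMap.ker_eq_bot']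
  intro c hc
  have h := norm_le_of_Lam c (D := 0) (fun x => by rw [hc]; simp)
  rw [mul_zero] at h
  exact norm_le_zero_iff.1 h

variable (𝕜) in
/-- the continuous functions in the range of the operator -/
def Kset : Set C(I, 𝕜) := {g | ∃ c : Bd 𝕜, Lam c = g}

lemma isClosed_Kset : IsClosed (Kset 𝕜) := by
  apply IsSeqClosed.isClosed
  intro g G hg hG
  choose c hc using hg
  have hcd : ∀ m l, dist (c m) (c l) ≤ 2 * dist (g m) (g l) := by
    intro m l
    rw [dist_eq_norm]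
    apply norm_le_of_Lam
    intro x
    rw [map_sub, Pi.sub_apply, hc m, hc l, ← dist_eq_norm]
    exact ContinuousMap.dist_apply_le_dist x
  have hcau : CauchySeq c := by
    have hg2 := hG.cauchySeq
    rw [Metric.cauchySeq_iff] at hg2 ⊢
    intro ε hε
    obtain ⟨N, hN⟩ := hg2 (ε / 2) (by linarith)
    refine ⟨N, fun m hm l hl => ?_⟩
    have h1 := hN m hm l hl
    have h2 := hcd m l
    linarith
  obtain ⟨C, hC⟩ := cauchySeq_tendsto_of_complete hcau
  refine ⟨C, ?_⟩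
  funext x
  have h1 : Tendsto (fun m => Lam (c m) x) atTop (𝓝 (Lam C x)) := by
    rw [tendsto_iff_dist_tendsto_zero]
    have h2 : Tendsto (fun m => 2 * dist (c m) C) atTop (𝓝 0) := by
      have := (tendsto_iff_dist_tendsto_zero.1 hC).const_mul 2
      simpa using this
    refine squeeze_zero (fun _ => dist_nonneg) (fun m => ?_) h2
    rw [dist_eq_norm, ← Pi.sub_apply, ← map_sub, Lam_apply, dist_eq_norm]
    exact norm_LL_le (Bd_le (c m - C)) x
  have h3 : Tendsto (fun m => g m x) atTop (𝓝 (G x)) :=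
    ((continuous_eval_const x).tendsto G).comp hG
  have h4 : (fun m => Lam (c m) x) = fun m => g m x := by
    funext m
    rw [hc m]
  rw [h4] at h1
  exact tendsto_nhds_unique h1 h3

end Op

end Pool.Agent.H451R3.PS
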