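import Mathlib
import Pool.Agent.H451R3.Space

/-!
The closed subspace of functions singular at every point.
-/

set_option autoImplicit false

open Filter Topology Finset

namespace Pool.Agent.H451R3.PS

variable {𝕜 : Type*} [RCLike 𝕜]

lemma ext_apply (f : I → 𝕜) {x : ℝ} (hx : x ∈ I) : ext f x = f ⟨x, hx⟩ := by
  unfold ext
  exact Set.IccExtend_of_mem _ _ hx

lemma uI : UniqueDiffOn ℝ I := uniqueDiffOn_Icc (zero_lt_one' ℝ)

/-- the sum of finitely many bumps -/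
noncomputable def FF (c : ℕ → 𝕜) (J n : ℕ) (y : ℝ) : 𝕜 := ∑ j ∈ range J, iteratedDeriv n (vv j) y • c j

lemma hasDerivAt_FF (c : ℕ → 𝕜) (J n : ℕ) (y : ℝ) : HasDerivAt (FF c J n) (FF c J (n + 1) y) y := by
  unfold FF
  apply HasDerivAt.fun_sum
  intro j _
  have h1 : Differentiable ℝ (iteratedDeriv n (vv j)) :=
    ((vv j).contDiff (n := (⊤ : ℕ∞))).differentiable_iteratedDeriv n
      (by exact_mod_cast WithTop.coe_lt_top n)
  have h2 := (h1 y).hasDerivAt.smul_const (c j)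
  rw [iteratedDeriv_succ]
  exact h2

lemma iteratedDeriv_FF (c : ℕ → 𝕜) (J n : ℕ) : iteratedDeriv n (FF c J 0) = FF c J n := by
  induction n with
  | zero => simp
  | succ n ih =>
    rw [iteratedDeriv_succ, ih]
    funext y
    exact (hasDerivAt_FF c J n y).deriv

lemma contDiff_FF (c : ℕ → 𝕜) (J : ℕ) : ContDiff ℝ (⊤ : ℕ∞) (FF c J 0) := by
  apply contDiff_of_differentiable_iteratedDeriv
  intro m _
  rw [iteratedDeriv_FF]
  exact fun y => (hasDerivAt_FF c J m y).differentiableAt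

lemma BB_deriv {c : ℕ → 𝕜} {C : ℝ} (hc : ∀ i, ‖c i‖ ≤ C) (hs : ContDiffOn ℝ (⊤ : ℕ∞) (BB c) I)
    {x : ℝ} (hx : x ∈ I) :
    ∃ J : ℕ, ∀ n, ‖iteratedDerivWithin n (BB c) I x‖ ≤ C * ∑ j ∈ range J, KK j n := by
  have hC : 0 ≤ C := (norm_nonneg _).trans (hc 0)
  rcases eq_or_lt_of_le hx.1 with h0 | h0
  · refine ⟨0, fun n => ?_⟩
    subst h0
    have hcont : ContinuousOn (iteratedDerivWithin n (BB c) I) I :=
      hs.continuousOn_iteratedDerivWithin (by exact_mod_cast le_top) uI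
    have hlim : Tendsto (fun m : ℕ => (1 / 2 : ℝ) ^ m) atTop (𝓝[I] 0) := by
      rw [tendsto_nhdsWithin_iff]
      refine ⟨tendsto_pow_atTop_nhds_zero_of_lt_one (by norm_num) (by norm_num), ?_⟩
      filter_upwards with m
      exact ⟨(half_pow_pos m).le, pow_le_one₀ (by norm_num) (by norm_num)⟩
    have h1 := (hcont 0 hx).tendsto.comp hlim
    have h2 : ∀ m : ℕ, iteratedDerivWithin n (BB c) I ((1 / 2 : ℝ) ^ m) = 0 := by
      intro m
      have h3 : BB c =ᶠ[𝓝 ((1 / 2 : ℝ) ^ m)] fun _ => (0 : 𝕜) := by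
        filter_upwards [vv_gap m] with y hy
        unfold BB
        simp [hy]
      have hm : (1 / 2 : ℝ) ^ m ∈ I := ⟨(half_pow_pos m).le, pow_le_one₀ (by norm_num) (by norm_num)⟩
      rw [(h3.filter_mono nhdsWithin_le_nhds).iteratedDerivWithin_eq h3.self_of_nhds,
        iteratedDerivWithin_eq_iteratedDeriv uI contDiffAt_const hm]
      rw [iteratedDeriv_const]
      split_ifs <;> rfl
    have h4 : iteratedDerivWithin n (BB c) I 0 = 0 := by
      refine tendsto_nhds_unique h1 ?_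
      have : (iteratedDerivWithin n (BB c) I ∘ fun m : ℕ => (1 / 2 : ℝ) ^ m) = fun _ => (0 : 𝕜) := by
        funext m
        exact h2 m
      rw [this]
      exact tendsto_const_nhds
    rw [h4]
    simp
  · obtain ⟨J, hJ⟩ := exists_pow_lt_of_lt_one h0 (by norm_num : (1 / 2 : ℝ) < 1)
    refine ⟨J, fun n => ?_⟩
    have h1 : BB c =ᶠ[𝓝 x] FF c J 0 := by
      filter_upwards [lt_mem_nhds hJ] with y hy
      rw [BB_eq_sum c hy.le]
      unfold FF
      simp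
    rw [(h1.filter_mono nhdsWithin_le_nhds).iteratedDerivWithin_eq h1.self_of_nhds,
      iteratedDerivWithin_eq_iteratedDeriv uI
        ((contDiff_FF c J).contDiffAt.of_le (by exact_mod_cast le_top)) hx,
      iteratedDeriv_FF]
    unfold FF
    rw [mul_sum]
    refine (norm_sum_le _ _).trans (sum_le_sum fun j _ => ?_)
    rw [norm_smul, Real.norm_eq_abs, mul_comm]
    exact mul_le_mul (hc j) (KK_spec j n hx) (abs_nonneg _) hC

/-- the subspace -/
noncomputable def VV : Submodule 𝕜 (CInf 𝕜) :=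
  (LinearMap.range (Lam (𝕜 := 𝕜))).comap (CInf 𝕜).subtype

lemma mem_VV (f : CInf 𝕜) : f ∈ VV ↔ ∃ c : Bd 𝕜, Lam c = f.1 := Iff.rfl

lemma deriv_zero (f : CInf 𝕜) : (deriv' 0 f : I → 𝕜) = f.1 := by
  funext x
  change iteratedDerivWithin 0 (ext f.1) I x = f.1 x
  rw [iteratedDerivWithin_zero, ext_apply _ x.2]

lemma isClosed_VV : @IsClosed _ (frechet 𝕜) (VV (𝕜 := 𝕜) : Set (CInf 𝕜)) := by
  have h1 : (VV (𝕜 := 𝕜) : Set (CInf 𝕜)) = (fun f => deriv' 0 f) ⁻¹' (Kset 𝕜) := by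
    ext f
    change f ∈ VV ↔ ∃ c : Bd 𝕜, Lam c = deriv' 0 f
    rw [deriv_zero]
    exact mem_VV f
  rw [h1]
  have h2 : @Continuous _ _ (frechet 𝕜) _ (fun f : CInf 𝕜 => deriv' 0 f) := by
    have h3 : @Continuous _ _ (frechet 𝕜) _ (fun (f : CInf 𝕜) (n : ℕ) => deriv' n f) :=
      continuous_induced_dom
    exact @Continuous.comp _ _ _ (frechet 𝕜) _ _ _ _ (continuous_apply 0) h3
  exact @IsClosed.preimage _ _ (frechet 𝕜) _ _ h2 _ isClosed_Kset

lemma deriv_split (f : CInf 𝕜) (c : Bd 𝕜) (hc : Lam c = f.1) :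
    ContDiffOn ℝ (⊤ : ℕ∞) (BB (c : ℕ → 𝕜)) I ∧ ∀ (n : ℕ) (x : I),
      deriv' n f x = iteratedDerivWithin n (BB (c : ℕ → 𝕜)) I x + TT MM (fun k => c (JJ k)) n x := by
  have hT := contDiff_TT MM (c := fun k => c (JJ k)) (fun k => Bd_le c (JJ k))
  have hEq : Set.EqOn (ext f.1) (BB (c : ℕ → 𝕜) + TT MM (fun k => c (JJ k)) 0) I := by
    intro x hx
    rw [ext_apply _ hx]
    exact (congrFun hc ⟨x, hx⟩).symm
  have hB : ContDiffOn ℝ (⊤ : ℕ∞) (BB (c : ℕ → 𝕜)) I := by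
    refine (ContDiffOn.sub f.2 hT.contDiffOn).congr fun x hx => ?_
    rw [hEq hx]
    simp
  refine ⟨hB, fun n x => ?_⟩
  change iteratedDerivWithin n (ext f.1) I x = _
  rw [iteratedDerivWithin_congr hEq x.2, iteratedDerivWithin_add x.2 uI
    ((hB x x.2).of_le (by exact_mod_cast le_top))
    (hT.contDiffAt.contDiffWithinAt.of_le (by exact_mod_cast le_top)),
    iteratedDerivWithin_eq_iteratedDeriv uI (hT.contDiffAt.of_le (by exact_mod_cast le_top)) x.2,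
    iteratedDeriv_TT MM (fun k => Bd_le c (JJ k))]

lemma rho_zero (f : CInf 𝕜) (hf : f ∈ VV) (hf0 : f ≠ 0) (x : I) : rho f x = 0 := by
  obtain ⟨c, hc⟩ := (mem_VV f).1 hf
  obtain ⟨hB, hd⟩ := deriv_split f c hc
  have hc0 : ∃ j, c j ≠ 0 := by
    by_contra hcon
    push Not at hcon
    apply hf0
    have : c = 0 := by
      ext j
      exact hcon j
    rw [this, map_zero] at hc
    apply Subtype.ext
    ext x
    exact (congrFun hc x).symm
  obtain ⟨j, hj⟩ := hc0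
  have hδ : 0 < ‖c j‖ := norm_pos_iff.2 hj
  obtain ⟨J, hJ⟩ := BB_deriv (Bd_le c) hB x.2
  set C := ‖c‖ with hC
  have hC0 : 0 ≤ C := norm_nonneg c
  unfold rho
  apply radius_zero _ (‖c j‖ / 2) (by linarith)
  intro N
  obtain ⟨N1, hN1⟩ := exists_nat_ge (5 * C / ‖c j‖)
  obtain ⟨k, hk, hJk⟩ := JJ_inf j (max N (max N1 J))
  have hkN : N ≤ k := (le_max_left _ _).trans hk
  have hkN1 : N1 ≤ k := ((le_max_left _ _).trans (le_max_right _ _)).trans hk
  have hkJ : J ≤ k := ((le_max_right _ _).trans (le_max_right _ _)).trans hk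
  obtain ⟨n, hn, hlarge⟩ := main_large MM k x
  have hn3 : n ≤ 2 * k + 3 := by omega
  refine ⟨n, by omega, ?_⟩
  have h1 := TT_lower MM (c := fun k => c (JJ k)) (fun k => Bd_le c (JJ k)) k n hn3 x
  rw [hJk] at h1
  have h2 : ‖iteratedDerivWithin n (BB (c : ℕ → 𝕜)) I x‖ ≤ C * MM k :=
    (hJ n).trans (mul_le_mul_of_nonneg_left (sum_KK_le hkJ hn3) hC0)
  have h3 : ‖TT MM (fun k => c (JJ k)) n x‖ ≤ ‖deriv' n f x‖ +
      ‖iteratedDerivWithin n (BB (c : ℕ → 𝕜)) I x‖ := by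
    rw [hd n x]
    have := norm_sub_le (iteratedDerivWithin n (BB (c : ℕ → 𝕜)) I x + TT MM (fun k => c (JJ k)) n x)
      (iteratedDerivWithin n (BB (c : ℕ → 𝕜)) I x)
    rwa [add_sub_cancel_left] at this
  have h4 := lam_ge' MM k
  have hk1 : (0 : ℝ) < (k : ℝ) + 1 := by positivity
  have hfac : ((n.factorial : ℝ)) ^ 2 ≤ ((2 * k + 3).factorial : ℝ) ^ 2 := by
    have : (n.factorial : ℝ) ≤ ((2 * k + 3).factorial : ℝ) := by
      exact_mod_cast Nat.factorial_le hn3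
    have h0 : (0 : ℝ) ≤ (n.factorial : ℝ) := Nat.cast_nonneg _
    nlinarith
  set A := ∑ i ∈ range k, (lam MM i) ^ (2 * k + 3) with hA
  set P := ((2 * k + 3).factorial : ℝ) ^ 2 with hP
  have hP0 : 0 ≤ P := by positivity
  have h5 : 5 * C ≤ ‖c j‖ * (k + 1) := by
    rw [div_le_iff₀ hδ] at hN1
    have : (N1 : ℝ) ≤ k := by exact_mod_cast hkN1
    nlinarith
  have h6 : 7 / 10 * lam MM k * ‖c j‖ ≤ |ww MM k n x| * ‖c j‖ :=
    mul_le_mul_of_nonneg_right hlarge hδ.le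
  -- the error terms
  have hl := lam_pos MM k
  have hA0 : 0 ≤ A := sum_nonneg fun i _ => pow_nonneg (lam_pos MM i).le _
  have hM0 : 0 ≤ MM k := by
    unfold MM
    exact sum_nonneg fun _ _ => sum_nonneg fun _ _ => KK_nonneg _ _
  have hQ0 : 0 ≤ A + MM k + 2 + P := by linarith
  have h7 : C * (A + MM k + 2 + P) ≤ ‖c j‖ / 5 * lam MM k := by
    calc C * (A + MM k + 2 + P) ≤ (‖c j‖ * (k + 1) / 5) * (A + MM k + 2 + P) :=
          mul_le_mul_of_nonneg_right (by linarith) hQ0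
      _ = ‖c j‖ / 5 * ((k + 1) * (A + MM k + 2 + P)) := by ring
      _ ≤ _ := mul_le_mul_of_nonneg_left h4 (by positivity)
  have h8 : P ≤ lam MM k := by
    have : A + MM k + 2 + P ≤ (k + 1) * (A + MM k + 2 + P) := by
      have : (0 : ℝ) ≤ (k : ℝ) * (A + MM k + 2 + P) := by positivity
      linarith
    linarith
  have h9 : C * (A + 2) + C * MM k ≤ C * (A + MM k + 2 + P) := by
    have : 0 ≤ C * P := mul_nonneg hC0 hP0
    linarith
  have h10 : ‖c j‖ / 2 * P ≤ ‖c j‖ / 2 * lam MM k := mul_le_mul_of_nonneg_left h8 (by linarith)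
  have h11 : ‖c j‖ / 2 * (n.factorial : ℝ) ^ 2 ≤ ‖c j‖ / 2 * P :=
    mul_le_mul_of_nonneg_left hfac (by linarith)
  linarith

/-- unit vectors -/
noncomputable def ee (j : ℕ) : Bd 𝕜 :=
  BoundedContinuousFunction.ofNormedAddCommGroupDiscrete (fun i => if i = j then (1 : 𝕜) else 0) 1
    (by intro i; split_ifs <;> simp)

lemma ee_apply (j i : ℕ) : (ee j : Bd 𝕜) i = if i = j then (1 : 𝕜) else 0 := rfl

lemma smooth_ee (j : ℕ) : ContDiff ℝ (⊤ : ℕ∞) (LL ((ee j : Bd 𝕜) : ℕ → 𝕜)) := by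
  have h1 : BB ((ee j : Bd 𝕜) : ℕ → 𝕜) = fun y => (vv j y) • (1 : 𝕜) := by
    funext y
    unfold BB
    rw [tsum_eq_single j]
    · rw [ee_apply, if_pos rfl]
    · intro i hi
      rw [ee_apply, if_neg hi, smul_zero]
  have h2 : ContDiff ℝ (⊤ : ℕ∞) (BB ((ee j : Bd 𝕜) : ℕ → 𝕜)) := by
    rw [h1]
    exact (vv j).contDiff.smul contDiff_const
  exact h2.add (contDiff_TT MM (c := fun k => (ee j : Bd 𝕜) (JJ k)) (fun k => Bd_le _ (JJ k)))

/-- the generators of the subspace -/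
noncomputable def gg (j : ℕ) : CInf 𝕜 :=
  ⟨fun x => LL ((ee j : Bd 𝕜) : ℕ → 𝕜) x, by
    change ContDiffOn ℝ (⊤ : ℕ∞) (ext _) I
    refine (smooth_ee (𝕜 := 𝕜) j).contDiffOn.congr fun x hx => ?_
    rw [ext_apply _ hx]⟩

lemma gg_mem (j : ℕ) : (gg j : CInf 𝕜) ∈ VV := (mem_VV _).2 ⟨ee j, rfl⟩

lemma Lam_ee_indep : LinearIndependent 𝕜 (fun j => Lam (ee j : Bd 𝕜)) := by
  rw [linearIndependent_iff']
  intro s g hg i hi
  have h0 : Lam (∑ j ∈ s, g j • (ee j : Bd 𝕜)) = 0 := by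
    rw [← hg, map_sum]
    exact sum_congr rfl fun j _ => Lam.map_smul (g j) (ee j)
  have h1 : (∑ j ∈ s, g j • (ee j : Bd 𝕜)) = 0 := by
    have h3 := norm_le_of_Lam (∑ j ∈ s, g j • (ee j : Bd 𝕜)) (D := 0) (fun x => by rw [h0]; simp)
    rw [mul_zero] at h3
    exact norm_le_zero_iff.1 h3
  have h2 := congrArg (fun c : Bd 𝕜 => c i) h1
  simp only [BoundedContinuousFunction.coe_sum, Finset.sum_apply, BoundedContinuousFunction.coe_smul,
    BoundedContinuousFunction.coe_zero, Pi.zero_apply, ee_apply, smul_eq_mul, mul_ite, mul_one,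
    mul_zero] at h2
  rwa [sum_ite_eq, if_pos hi] at h2

/-- the inclusion into the space of all functions -/
noncomputable def incl : (VV : Submodule 𝕜 (CInf 𝕜)) →ₗ[𝕜] (I → 𝕜) :=
  (CInf 𝕜).subtype.comp (VV (𝕜 := 𝕜)).subtype

lemma incl_gg (j : ℕ) : incl (⟨gg j, gg_mem j⟩ : (VV : Submodule 𝕜 (CInf 𝕜))) = Lam (ee j : Bd 𝕜) := rfl

lemma gg_indep : LinearIndependent 𝕜
    (fun j => (⟨gg j, gg_mem j⟩ : (VV : Submodule 𝕜 (CInf 𝕜)))) := by
  have h1 := Lam_ee_indep (𝕜 := 𝕜)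
  have h2 : (incl ∘ fun j => (⟨gg j, gg_mem j⟩ : (VV : Submodule 𝕜 (CInf 𝕜)))) =
      fun j => Lam (ee j : Bd 𝕜) := funext incl_gg
  exact LinearIndependent.of_comp incl (by rw [h2]; exact h1)

lemma not_fin : ¬ FiniteDimensional 𝕜 (VV : Submodule 𝕜 (CInf 𝕜)) := by
  intro h
  have := (gg_indep (𝕜 := 𝕜)).finite
  exact not_finite ℕ

end Pool.Agent.H451R3.PS
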