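import Mathlib
import Pool.Agent.H451R3.Key
import Pool.Agent.H451R3.Main

/-!
Exponential polynomials in an everywhere singular smooth function.
-/

set_option autoImplicit false

open Filter Topology Finset

namespace Pool.Agent.H451R3.PS

/-- a smooth real function whose Taylor series diverges at every point -/
noncomputable def f0 : ℝ → ℝ := TT (fun _ => (0 : ℝ)) (fun _ => (1 : ℝ)) 0

lemma one_bd : ∀ i : ℕ, ‖(fun _ : ℕ => (1 : ℝ)) i‖ ≤ 1 := fun i => by simp

lemma contDiff_f0 : ContDiff ℝ (⊤ : ℕ∞) f0 := contDiff_TT _ one_bd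

lemma f0_large (x : ℝ) (N : ℕ) : ∃ n ≥ N, 1 * (n.factorial : ℝ) ^ 2 ≤ ‖iteratedDeriv n f0 x‖ := by
  obtain ⟨n, hn, hlarge⟩ := main_large (fun _ => (0 : ℝ)) (N + 1) x
  have hn3 : n ≤ 2 * (N + 1) + 3 := by omega
  refine ⟨n, by omega, ?_⟩
  have h1 := TT_lower (fun _ => (0 : ℝ)) one_bd (N + 1) n hn3 x
  unfold f0
  rw [iteratedDeriv_TT _ one_bd]
  have h4 := lam_ge' (fun _ => (0 : ℝ)) (N + 1)
  have hfac : ((n.factorial : ℝ)) ^ 2 ≤ ((2 * (N + 1) + 3).factorial : ℝ) ^ 2 := by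
    have : (n.factorial : ℝ) ≤ ((2 * (N + 1) + 3).factorial : ℝ) := by
      exact_mod_cast Nat.factorial_le hn3
    have h0 : (0 : ℝ) ≤ (n.factorial : ℝ) := Nat.cast_nonneg _
    nlinarith
  set A := ∑ i ∈ range (N + 1), (lam (fun _ => (0 : ℝ)) i) ^ (2 * (N + 1) + 3) with hA
  set P := ((2 * (N + 1) + 3).factorial : ℝ) ^ 2 with hP
  set l := lam (fun _ => (0 : ℝ)) (N + 1) with hl
  have hP0 : 0 ≤ P := by positivity
  have hA0 : 0 ≤ A := sum_nonneg fun i _ => pow_nonneg (lam_pos _ i).le _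
  have hl0 : 0 < l := lam_pos _ _
  have h5 : 2 * (A + 2 + P) ≤ l := by
    push_cast at h4
    have : (0 : ℝ) ≤ (N : ℝ) * (A + 2 + P) := by positivity
    nlinarith
  simp only [norm_one, mul_one, one_mul] at h1 ⊢
  linarith

lemma f0_radius (x : ℝ) : (FormalMultilinearSeries.ofScalars ℝ
    (fun n : ℕ => iteratedDeriv n f0 x / (n.factorial : ℝ))).radius = 0 :=
  radius_zero (fun n => iteratedDeriv n f0 x) 1 one_pos (f0_large x)

lemma radius_comp {h : ℝ → ℝ} (hh : ∀ s, AnalyticAt ℝ h s)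
    (hnc : ∀ s, ¬ ∀ᶠ t in 𝓝 s, h t = h s) (x0 : ℝ) :
    (FormalMultilinearSeries.ofScalars ℝ
      (fun n : ℕ => iteratedDeriv n (h ∘ f0) x0 / (n.factorial : ℝ))).radius = 0 := by
  by_contra hne
  have hg : ContDiff ℝ (⊤ : ℕ∞) (h ∘ f0) :=
    (contDiff_iff_contDiffAt.2 fun s => (hh s).contDiffAt).comp contDiff_f0
  obtain ⟨n, hn, hn'⟩ := f0_large x0 1
  have h1 := key contDiff_f0 (hh (f0 x0)) (hnc (f0 x0)) ⟨n, hn, fun h0 => by
    rw [h0, norm_zero] at hn'
    have : (0 : ℝ) < 1 * (n.factorial : ℝ) ^ 2 := by positivity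
    linarith⟩ hg rfl (pos_iff_ne_zero.2 hne)
  rw [f0_radius] at h1
  exact lt_irrefl _ h1

section K

variable {𝕜 : Type*} [RCLike 𝕜]

lemma iteratedDeriv_clm {g : ℝ → 𝕜} (hg : ContDiff ℝ (⊤ : ℕ∞) g) (L : 𝕜 →L[ℝ] ℝ) (n : ℕ) (x : ℝ) :
    iteratedDeriv n (L ∘ g) x = L (iteratedDeriv n g x) := by
  rw [iteratedDeriv_eq_iteratedFDeriv, iteratedDeriv_eq_iteratedFDeriv,
    L.iteratedFDeriv_comp_left (n := (⊤ : ℕ∞)) hg.contDiffAt (by exact_mod_cast le_top)]
  rfl

lemma radius_of_clm {h : ℝ → 𝕜} (hh : ∀ s, AnalyticAt ℝ h s) (h0 : Tendsto h atBot (𝓝 0))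
    (L : 𝕜 →L[ℝ] ℝ) (hL : ∀ z, ‖L z‖ ≤ ‖z‖) {s1 : ℝ} (hne : L (h s1) ≠ 0) (x0 : ℝ) :
    (FormalMultilinearSeries.ofScalars 𝕜
      (fun n : ℕ => iteratedDeriv n (h ∘ f0) x0 / (n.factorial : 𝕜))).radius = 0 := by
  have hR : ∀ s, AnalyticAt ℝ (L ∘ h) s := fun s => L.analyticAt _ |>.comp (hh s)
  have hg : ContDiff ℝ (⊤ : ℕ∞) (h ∘ f0) :=
    (contDiff_iff_contDiffAt.2 fun s => (hh s).contDiffAt).comp contDiff_f0
  have h1 := radius_comp hR (by
    intro s hs
    have h2 : L ∘ h = fun _ => (L ∘ h) s :=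
      AnalyticOnNhd.eq_of_eventuallyEq (fun t _ => hR t) (fun t _ => analyticAt_const) hs
    have h3 : Tendsto (L ∘ h) atBot (𝓝 0) := by
      have := (L.continuous.tendsto 0).comp h0
      rwa [map_zero] at this
    have h4 : (L ∘ h) s = 0 := by
      rw [h2] at h3
      exact tendsto_nhds_unique tendsto_const_nhds h3
    have h5 : (L ∘ h) s1 = (L ∘ h) s := congrFun h2 s1
    rw [h4] at h5
    exact hne h5) x0
  refine le_antisymm ?_ bot_le
  rw [← h1]
  apply FormalMultilinearSeries.radius_le_of_le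
  intro n
  rw [FormalMultilinearSeries.ofScalars_norm, FormalMultilinearSeries.ofScalars_norm,
    norm_div, norm_div, RCLike.norm_natCast, RCLike.norm_natCast, Function.comp_assoc,
    iteratedDeriv_clm hg]
  exact div_le_div_of_nonneg_right (hL _) (Nat.cast_nonneg _)

lemma radius_comp' {h : ℝ → 𝕜} (hh : ∀ s, AnalyticAt ℝ h s) (h0 : Tendsto h atBot (𝓝 0))
    (hne : h ≠ 0) (x0 : ℝ) : (FormalMultilinearSeries.ofScalars 𝕜
      (fun n : ℕ => iteratedDeriv n (h ∘ f0) x0 / (n.factorial : 𝕜))).radius = 0 := by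
  obtain ⟨s1, hs1⟩ : ∃ s, h s ≠ 0 := by
    by_contra hcon
    push Not at hcon
    exact hne (funext hcon)
  by_cases hre : RCLike.re (h s1) = 0
  · have him : RCLike.im (h s1) ≠ 0 := by
      intro him
      apply hs1
      apply RCLike.ext
      · rw [hre, map_zero]
      · rw [him, map_zero]
    exact radius_of_clm hh h0 RCLike.imCLM (fun z => by
      rw [RCLike.imCLM_apply, Real.norm_eq_abs]; exact RCLike.abs_im_le_norm z)
      (s1 := s1) (by rwa [RCLike.imCLM_apply]) x0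
  · exact radius_of_clm hh h0 RCLike.reCLM (fun z => by
      rw [RCLike.reCLM_apply, Real.norm_eq_abs]; exact RCLike.abs_re_le_norm z)
      (s1 := s1) (by rwa [RCLike.reCLM_apply]) x0

variable {ι : Type*}

/-- frequency of a monomial -/
noncomputable def wt (b : ι → ℝ) (m : ι →₀ ℕ) : ℝ := ∑ i ∈ m.support, (m i : ℝ) * b i

lemma wt_injective {b : ι → ℝ} (hb : LinearIndependent ℚ b) : Function.Injective (wt b) := by
  have h1 : LinearIndependent ℕ b := hb.restrict_scalars (by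
    intro m n h
    simpa using h)
  intro m n h
  apply h1
  simpa [Finsupp.linearCombination_apply, Finsupp.sum, wt] using h

lemma wt_pos {b : ι → ℝ} (hb : ∀ i, 0 < b i) {m : ι →₀ ℕ} (hm : m ≠ 0) : 0 < wt b m := by
  unfold wt
  apply sum_pos
  · intro i hi
    have : 0 < m i := Nat.pos_of_ne_zero (Finsupp.mem_support_iff.1 hi)
    have h2 := hb i
    positivity
  · exact Finsupp.support_nonempty_iff.2 hm

/-- the exponential sum attached to a polynomial -/
noncomputable def hp (b : ι → ℝ) (p : MvPolynomial ι 𝕜) (s : ℝ) : 𝕜 :=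
  ∑ m ∈ p.support, p.coeff m * ((Real.exp (wt b m * s) : ℝ) : 𝕜)

lemma hp_analytic (b : ι → ℝ) (p : MvPolynomial ι 𝕜) (s : ℝ) : AnalyticAt ℝ (hp b p) s := by
  unfold hp
  apply Finset.analyticAt_fun_sum
  intro m _
  apply AnalyticAt.mul analyticAt_const
  have h1 : AnalyticAt ℝ (fun s : ℝ => Real.exp (wt b m * s)) s :=
    (analyticAt_const.mul analyticAt_id).rexp
  exact ((RCLike.ofRealCLM (K := 𝕜)).analyticAt _).comp h1

lemma hp_tendsto {b : ι → ℝ} (hb : ∀ i, 0 < b i) {p : MvPolynomial ι 𝕜}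
    (hp0 : MvPolynomial.constantCoeff p = 0) : Tendsto (hp b p) atBot (𝓝 0) := by
  unfold hp
  have h1 : ∀ m ∈ p.support, Tendsto (fun s : ℝ => p.coeff m * ((Real.exp (wt b m * s) : ℝ) : 𝕜))
      atBot (𝓝 0) := by
    intro m hm
    have hm0 : m ≠ 0 := by
      intro h
      rw [h] at hm
      exact (MvPolynomial.mem_support_iff.1 hm) hp0
    have h2 : Tendsto (fun s : ℝ => Real.exp (wt b m * s)) atBot (𝓝 0) :=
      Real.tendsto_exp_atBot.comp (tendsto_id.const_mul_atBot (wt_pos hb hm0))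
    have h3 := ((RCLike.continuous_ofReal (K := 𝕜)).tendsto 0).comp h2
    have h4 := h3.const_mul (p.coeff m)
    simpa using h4
  have h2 := tendsto_finsetSum p.support h1
  simpa using h2

/-- characters of the real line -/
noncomputable def chi (γ : ℝ) : Multiplicative ℝ →* 𝕜 where
  toFun s := ((Real.exp (γ * s.toAdd) : ℝ) : 𝕜)
  map_one' := by simp
  map_mul' s t := by
    rw [toAdd_mul, mul_add, Real.exp_add, RCLike.ofReal_mul]

lemma chi_injective : Function.Injective (chi (𝕜 := 𝕜)) := by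
  intro γ γ' h
  have h1 := DFunLike.congr_fun h (Multiplicative.ofAdd (1 : ℝ))
  have h2 : ((Real.exp (γ * 1) : ℝ) : 𝕜) = ((Real.exp (γ' * 1) : ℝ) : 𝕜) := h1
  rw [RCLike.ofReal_inj, Real.exp_eq_exp] at h2
  linarith

lemma hp_ne_zero {b : ι → ℝ} (hb : LinearIndependent ℚ b) {p : MvPolynomial ι 𝕜} (hp0 : p ≠ 0) :
    hp b p ≠ 0 := by
  intro h
  have h1 := (linearIndependent_monoidHom (Multiplicative ℝ) 𝕜).comp (fun m : ι →₀ ℕ => chi (wt b m))
    (chi_injective.comp (wt_injective hb))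
  rw [linearIndependent_iff'] at h1
  apply hp0
  have h2 := h1 p.support (fun m => p.coeff m) (by
    funext s
    have := congrFun h s.toAdd
    simp only [hp, Pi.zero_apply] at this
    simp only [Finset.sum_apply, Pi.smul_apply, smul_eq_mul, Pi.zero_apply, Function.comp]
    exact this)
  ext m
  by_cases hm : m ∈ p.support
  · rw [h2 m hm, MvPolynomial.coeff_zero]
  · rw [MvPolynomial.notMem_support_iff.1 hm, MvPolynomial.coeff_zero]

/-- the generators -/
noncomputable def EE (b : ι → ℝ) (i : ι) : C(I, 𝕜) where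
  toFun x := ((Real.exp (b i * f0 x) : ℝ) : 𝕜)
  continuous_toFun := by
    have := contDiff_f0.continuous
    have h2 := RCLike.continuous_ofReal (K := 𝕜)
    fun_prop

lemma aeval_EE (b : ι → ℝ) (p : MvPolynomial ι 𝕜) (x : I) :
    (MvPolynomial.aeval (EE b : ι → C(I, 𝕜)) p) x = hp b p (f0 x) := by
  have h1 : (MvPolynomial.aeval (EE b : ι → C(I, 𝕜)) p) x =
      ContinuousMap.evalAlgHom 𝕜 𝕜 x (MvPolynomial.aeval (EE b : ι → C(I, 𝕜)) p) := rfl
  rw [h1, MvPolynomial.comp_aeval_apply, MvPolynomial.aeval_def, MvPolynomial.eval₂_eq]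
  unfold hp
  refine sum_congr rfl fun m _ => ?_
  have h2 : ∀ i, (ContinuousMap.evalAlgHom 𝕜 𝕜 x) (EE b i) = ((Real.exp (b i * f0 x) : ℝ) : 𝕜) :=
    fun i => rfl
  simp only [h2]
  rw [Algebra.algebraMap_self, RingHom.id_apply]
  congr 1
  rw [wt, sum_mul, Real.exp_sum, RCLike.ofReal_prod]
  refine prod_congr rfl fun i _ => ?_
  rw [← RCLike.ofReal_pow, ← Real.exp_nat_mul]
  congr 2
  ring

lemma radius_top {g : I → 𝕜} (hg : g = 0) (x : I) : (FormalMultilinearSeries.ofScalars 𝕜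
    (fun n : ℕ => iteratedDerivWithin n (ext g) I x / (n.factorial : 𝕜))).radius = ⊤ := by
  apply FormalMultilinearSeries.radius_eq_top_of_eventually_eq_zero
  filter_upwards with n
  rw [← norm_eq_zero, FormalMultilinearSeries.ofScalars_norm, norm_eq_zero]
  have h1 : ext g = fun _ => (0 : 𝕜) := by
    rw [hg]
    rfl
  rw [h1, iteratedDerivWithin_fun_const_zero]
  simp

lemma ext_eq (b : ι → ℝ) (p : MvPolynomial ι 𝕜) {x : ℝ} (hx : x ∈ I) :
    ext (MvPolynomial.aeval (EE b : ι → C(I, 𝕜)) p : I → 𝕜) x = (hp b p ∘ f0) x := by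
  rw [ext_apply _ hx]
  exact aeval_EE b p ⟨x, hx⟩

lemma contDiff_hp (b : ι → ℝ) (p : MvPolynomial ι 𝕜) : ContDiff ℝ (⊤ : ℕ∞) (hp b p ∘ f0) :=
  (contDiff_iff_contDiffAt.2 fun s => (hp_analytic b p s).contDiffAt).comp contDiff_f0

lemma radius_aeval {b : ι → ℝ} (hb : LinearIndependent ℚ b) (hb0 : ∀ i, 0 < b i)
    {p : MvPolynomial ι 𝕜} (hp0 : MvPolynomial.constantCoeff p = 0) (hne : p ≠ 0) (x : I) :
    (FormalMultilinearSeries.ofScalars 𝕜 (fun n : ℕ => iteratedDerivWithin n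
      (ext (MvPolynomial.aeval (EE b : ι → C(I, 𝕜)) p : I → 𝕜)) I x / (n.factorial : 𝕜))).radius = 0 := by
  have h1 := radius_comp' (hp_analytic b p) (hp_tendsto hb0 hp0) (hp_ne_zero hb hne) x
  rw [← h1]
  congr 2
  funext n
  rw [iteratedDerivWithin_congr (fun y hy => ext_eq b p hy) x.2,
    iteratedDerivWithin_eq_iteratedDeriv uI ((contDiff_hp b p).contDiffAt.of_le
      (by exact_mod_cast le_top)) x.2]

lemma indep [Nonempty ι] {b : ι → ℝ} (hb : LinearIndependent ℚ b) (hb0 : ∀ i, 0 < b i) :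
    AlgebraicIndependent 𝕜 (EE b : ι → C(I, 𝕜)) := by
  rw [algebraicIndependent_iff]
  intro p hp0
  by_contra hne
  obtain ⟨i⟩ := ‹Nonempty ι›
  have h1 : MvPolynomial.X i * p ≠ 0 := mul_ne_zero (MvPolynomial.X_ne_zero i) hne
  have h2 : MvPolynomial.constantCoeff (MvPolynomial.X i * p) = 0 := by
    rw [map_mul, MvPolynomial.constantCoeff_X, zero_mul]
  have h3 := radius_aeval hb hb0 h2 h1 ⟨0, by simp⟩
  rw [map_mul, hp0, mul_zero] at h3
  rw [radius_top (by rfl)] at h3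
  exact ENNReal.top_ne_zero h3

lemma mem_adjoin {b : ι → ℝ} {g : C(I, 𝕜)}
    (hg : g ∈ NonUnitalAlgebra.adjoin 𝕜 (Set.range (EE b : ι → C(I, 𝕜)))) :
    ∃ p : MvPolynomial ι 𝕜, MvPolynomial.constantCoeff p = 0 ∧ MvPolynomial.aeval (EE b) p = g := by
  induction hg using NonUnitalAlgebra.adjoin_induction with
  | mem x hx =>
    obtain ⟨i, rfl⟩ := hx
    exact ⟨MvPolynomial.X i, by simp, MvPolynomial.aeval_X _ i⟩
  | add x y _ _ hx hy =>
    obtain ⟨p, hp, rfl⟩ := hx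
    obtain ⟨q, hq, rfl⟩ := hy
    exact ⟨p + q, by rw [map_add, hp, hq, add_zero], map_add _ _ _⟩
  | zero => exact ⟨0, map_zero _, map_zero _⟩
  | mul x y _ _ hx hy =>
    obtain ⟨p, hp, rfl⟩ := hx
    obtain ⟨q, hq, rfl⟩ := hy
    exact ⟨p * q, by rw [map_mul, hp, zero_mul], map_mul _ _ _⟩
  | smul r x _ hx =>
    obtain ⟨p, hp, rfl⟩ := hx
    exact ⟨r • p, by rw [MvPolynomial.smul_eq_C_mul, map_mul, hp, mul_zero], map_smul _ _ _⟩

end K

/-- a family of positive reals of size continuum, linearly independent over the rationals -/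
lemma exists_family : ∃ (ι : Type) (b : ι → ℝ), Cardinal.mk ι = Cardinal.continuum ∧
    LinearIndependent ℚ b ∧ ∀ i, 0 < b i := by
  classical
  set B := Module.Basis.ofVectorSpace ℚ ℝ with hB
  have hne : ∀ i, B i ≠ 0 := fun i => B.ne_zero i
  refine ⟨_, fun i => |B i|, ?_, ?_, fun i => abs_pos.2 (hne i)⟩
  · exact B.mk_eq_rank''.trans Real.rank_rat_real
  · have h1 := B.linearIndependent.units_smul (fun i => if 0 < B i then (1 : ℚˣ) else -1)
    have h2 : (fun i => |B i|) = (fun i => if 0 < B i then (1 : ℚˣ) else -1) • (B : _ → ℝ) := by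
      funext i
      simp only [Pi.smul_apply']
      split_ifs with h
      · rw [one_smul, abs_of_pos h]
      · rw [Units.neg_smul, one_smul, abs_of_neg (lt_of_le_of_ne (not_lt.1 h) (hne i))]
    rw [h2]
    exact h1

end Pool.Agent.H451R3.PS
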