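import Mathlib

/-!
Von Neumann algebras on `ℓ²(Γ)` and the weak relative Dixmier property.
-/

set_option autoImplicit false
open scoped InnerProductSpace ENNReal
open Finset

namespace Pool.Agent.H451R3.WRD

/-- the Hilbert space `ℓ²(Γ)` -/
noncomputable abbrev HH (Γ : Type) := lp (fun _ : Γ => ℂ) 2

variable {Γ : Type}

lemma two_toReal : (2 : ℝ≥0∞).toReal = 2 := by norm_num

lemma summable_sq (f : HH Γ) : Summable fun g => ‖f g‖ ^ 2 := by
  have := (lp.memℓp f).summable (by norm_num)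
  simpa using this

lemma norm_sq_eq (f : HH Γ) : ‖f‖ ^ 2 = ∑' g, ‖f g‖ ^ 2 := by
  have := lp.norm_rpow_eq_tsum (p := 2) (by norm_num) f
  simpa using this

lemma mem_comp (σ : Equiv.Perm Γ) (f : HH Γ) : Memℓp (fun g => f (σ g)) 2 := by
  apply memℓp_gen
  have := (summable_sq f).comp_injective σ.injective
  simpa [Function.comp_def] using this

/-- composition with a permutation -/
noncomputable def UU (σ : Equiv.Perm Γ) : HH Γ →L[ℂ] HH Γ :=
  LinearMap.mkContinuous
    { toFun := fun f => ⟨fun g => f (σ g), mem_comp σ f⟩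
      map_add' := fun f h => by ext g; rfl
      map_smul' := fun c f => by ext g; rfl } 1 (fun f => by
        rw [one_mul]
        apply le_of_sq_le_sq _ (norm_nonneg _)
        rw [norm_sq_eq, norm_sq_eq]
        exact (Equiv.tsum_eq σ (fun g => ‖f g‖ ^ 2)).le)

@[simp] lemma UU_apply (σ : Equiv.Perm Γ) (f : HH Γ) (g : Γ) : UU σ f g = f (σ g) := rfl

lemma UU_mul (σ τ : Equiv.Perm Γ) : UU σ * UU τ = UU (τ * σ) := by
  ext f g
  rfl

lemma inner_UU (σ : Equiv.Perm Γ) (f h : HH Γ) : ⟪UU σ f, h⟫_ℂ = ⟪f, UU σ⁻¹ h⟫_ℂ := by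
  rw [lp.inner_eq_tsum, lp.inner_eq_tsum,
    ← Equiv.tsum_eq σ (fun g => ⟪f g, (UU σ⁻¹ h : HH Γ) g⟫_ℂ)]
  refine tsum_congr fun g => ?_
  simp

lemma star_UU (σ : Equiv.Perm Γ) : star (UU σ) = UU σ⁻¹ := by
  rw [ContinuousLinearMap.star_eq_adjoint]
  symm
  rw [ContinuousLinearMap.eq_adjoint_iff]
  intro x y
  rw [inner_UU, inv_inv]

open Classical in
lemma mem_ind (E : Set Γ) (f : HH Γ) : Memℓp (fun g => if g ∈ E then f g else 0) 2 := by
  apply (lp.memℓp f).mono'
  intro g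
  split_ifs
  · exact le_rfl
  · simp

open Classical in
/-- multiplication by the indicator function of a set -/
noncomputable def MU (E : Set Γ) : HH Γ →L[ℂ] HH Γ :=
  LinearMap.mkContinuous
    { toFun := fun f => ⟨fun g => if g ∈ E then f g else 0, mem_ind E f⟩
      map_add' := fun f h => by
        ext g
        change (if g ∈ E then (f + h) g else 0) = (if g ∈ E then f g else 0) + (if g ∈ E then h g else 0)
        split_ifs <;> simp
      map_smul' := fun c f => by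
        ext g
        change (if g ∈ E then (c • f) g else 0) = c • (if g ∈ E then f g else 0)
        split_ifs <;> simp } 1 (fun f => by
        rw [one_mul]
        apply lp.norm_mono (by norm_num)
        intro g
        change ‖(if g ∈ E then f g else 0)‖ ≤ ‖f g‖
        split_ifs
        · exact le_rfl
        · simp)

open Classical in
lemma MU_apply (E : Set Γ) (f : HH Γ) (g : Γ) : MU E f g = if g ∈ E then f g else 0 := rfl

open Classical in
/-- unit vectors -/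
noncomputable def dl (g : Γ) : HH Γ := lp.single 2 g (1 : ℂ)

open Classical in
lemma dl_apply (g h : Γ) : dl g h = if h = g then (1 : ℂ) else 0 := by
  unfold dl
  rw [lp.single_apply, Pi.single_apply]

lemma dl_self (g : Γ) : (dl g : HH Γ) g = 1 := by
  rw [dl_apply, if_pos rfl]

lemma dl_inner (g : Γ) (f : HH Γ) : ⟪dl g, f⟫_ℂ = f g := by
  classical
  unfold dl
  convert lp.inner_single_left g (1 : ℂ) f using 1
  simp

lemma UU_dl (σ : Equiv.Perm Γ) (g : Γ) : UU σ (dl g) = dl (σ⁻¹ g) := by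
  ext h
  rw [UU_apply, dl_apply, dl_apply]
  congr 1
  rw [eq_iff_iff, Equiv.Perm.eq_inv_iff_eq]

lemma ext_dl {S T : HH Γ →L[ℂ] HH Γ} (h : ∀ g, S (dl g) = T (dl g)) : S = T := by
  classical
  ext1 f
  have h1 := (lp.hasSum_single (p := 2) (by norm_num) f)
  have h2 := h1.mapL S
  have h3 := h1.mapL T
  refine h2.unique ?_
  convert h3 using 1
  funext g
  have h4 : lp.single 2 g (f g) = f g • dl g := by
    unfold dl
    rw [← lp.single_smul, smul_eq_mul, mul_one]
  rw [h4, map_smul, map_smul, h g]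

instance [Countable Γ] : TopologicalSpace.SeparableSpace (HH Γ) := by
  classical
  rw [← TopologicalSpace.isSeparable_univ_iff]
  have h1 : TopologicalSpace.IsSeparable
      (Submodule.span ℂ (Set.range (dl : Γ → HH Γ)) : Set (HH Γ)) :=
    (Set.countable_range _).isSeparable.span
  refine h1.closure.mono ?_
  intro f _
  have h2 := (lp.hasSum_single (p := 2) (by norm_num) f)
  refine mem_closure_of_tendsto h2 (Filter.Eventually.of_forall fun s => ?_)
  refine Submodule.sum_mem _ fun g _ => ?_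
  have h4 : lp.single 2 g (f g) = f g • dl g := by
    unfold dl
    rw [← lp.single_smul, smul_eq_mul, mul_one]
  rw [h4]
  exact Submodule.smul_mem _ _ (Submodule.subset_span ⟨g, rfl⟩)

section Algebras

variable [Group Γ]

/-- the von Neumann algebra of operators commuting with the right translations by a subgroup -/
noncomputable def NN (S : Subgroup Γ) : VonNeumannAlgebra (HH Γ) where
  toStarSubalgebra := StarSubalgebra.centralizer ℂ ((fun k : Γ => UU (Equiv.mulRight k)) '' S)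
  centralizer_centralizer' := by
    change Set.centralizer (Set.centralizer (Set.centralizer _)) = Set.centralizer _
    rw [Set.centralizer_centralizer_centralizer]

lemma mem_NN {S : Subgroup Γ} {z : HH Γ →L[ℂ] HH Γ} :
    z ∈ NN S ↔ ∀ k ∈ S, UU (Equiv.mulRight k) * z = z * UU (Equiv.mulRight k) := by
  have h0 : z ∈ NN S ↔
      z ∈ StarSubalgebra.centralizer ℂ ((fun k : Γ => UU (Equiv.mulRight k)) '' S) := Iff.rfl
  rw [h0, StarSubalgebra.mem_centralizer_iff]
  constructor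
  · intro h k hk
    exact (h _ ⟨k, hk, rfl⟩).1
  · rintro h _ ⟨k, hk, rfl⟩
    refine ⟨h k hk, ?_⟩
    have h1 : star (UU (Equiv.mulRight k)) = UU (Equiv.mulRight k⁻¹) := by
      rw [star_UU, Equiv.inv_mulRight]
    simp only
    rw [h1]
    exact h k⁻¹ (S.inv_mem hk)

lemma left_mem (S : Subgroup Γ) (g : Γ) : UU (Equiv.mulLeft g) ∈ NN S := by
  rw [mem_NN]
  intro k _
  rw [UU_mul, UU_mul]
  congr 1
  ext x
  simp [mul_assoc]

lemma MU_mem (S : Subgroup Γ) (E : Set Γ) (hE : ∀ g, ∀ k ∈ S, g * k ∈ E ↔ g ∈ E) : MU E ∈ NN S := by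
  classical
  rw [mem_NN]
  intro k hk
  ext f g
  change (MU E f : HH Γ) (g * k) = (MU E (UU (Equiv.mulRight k) f) : HH Γ) g
  rw [MU_apply, MU_apply]
  simp only [hE g k hk]
  rfl

/-- the commutant of all left translations and of the right translations by a relatively icc
subgroup is trivial -/
lemma trivial_commutant (S : Subgroup Γ)
    (hicc : ∀ g : Γ, g ≠ 1 → {h | ∃ k ∈ S, h = k * g * k⁻¹}.Infinite)
    {z : HH Γ →L[ℂ] HH Γ} (hz : z ∈ NN S)
    (hz' : ∀ g : Γ, z * UU (Equiv.mulLeft g) = UU (Equiv.mulLeft g) * z) :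
    ∃ c : ℂ, z = c • (1 : HH Γ →L[ℂ] HH Γ) := by
  classical
  rw [mem_NN] at hz
  set ξ := z (dl 1) with hξ
  have hconj : ∀ k ∈ S, ∀ g, ξ (k * g * k⁻¹) = ξ g := by
    intro k hk g
    have h1 : UU (Equiv.mulRight k⁻¹) (UU (Equiv.mulLeft k) (dl (1 : Γ))) = dl 1 := by
      rw [UU_dl, UU_dl]
      congr 1
      simp
    have h2 : UU (Equiv.mulRight k⁻¹) (UU (Equiv.mulLeft k) (z (dl (1 : Γ)))) = z (dl 1) := by
      have h3 := congrArg (fun T : HH Γ →L[ℂ] HH Γ => T (dl 1)) (hz' k)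
      have h4 := congrArg (fun T : HH Γ →L[ℂ] HH Γ => T (UU (Equiv.mulLeft k) (dl 1)))
        (hz k⁻¹ (S.inv_mem hk))
      simp only [mul_apply_eq_comp] at h3 h4
      rw [← h3, h4, h1]
    have h5 := congrArg (fun f : HH Γ => f g) h2
    simp only [UU_apply] at h5
    rw [hξ, ← h5]
    simp [mul_assoc]
  have hsupp : ∀ g, g ≠ 1 → ξ g = 0 := by
    intro g hg
    by_contra hne
    have h1 := (summable_sq ξ).tendsto_cofinite_zero
    have h2 : (0 : ℝ) < ‖ξ g‖ ^ 2 := by positivity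
    have h3 := h1.eventually (gt_mem_nhds h2)
    rw [Filter.eventually_cofinite] at h3
    apply hicc g hg
    refine h3.subset ?_
    rintro _ ⟨k, hk, rfl⟩
    simp only [Set.mem_ofPred_eq]
    rw [hconj k hk g]
    exact lt_irrefl _
  have hξ' : ξ = ξ 1 • dl 1 := by
    ext g
    change ξ g = ξ 1 * (dl 1 : HH Γ) g
    rw [dl_apply]
    split_ifs with h
    · rw [h, mul_one]
    · rw [hsupp g h, mul_zero]
  refine ⟨ξ 1, ext_dl fun g => ?_⟩
  have h1 : dl g = UU (Equiv.mulLeft g⁻¹) (dl (1 : Γ)) := by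
    rw [UU_dl]
    congr 1
    simp
  have h3 := congrArg (fun T : HH Γ →L[ℂ] HH Γ => T (dl 1)) (hz' g⁻¹)
  simp only [mul_apply_eq_comp] at h3
  rw [h1, h3, ← hξ, hξ', map_smul]
  simp [← hξ']

open Classical in
lemma diag {u : HH Γ →L[ℂ] HH Γ} (hu : u ∈ NN (⊤ : Subgroup Γ)) (E : Set Γ) (h : Γ) :
    HasSum (fun g => if g * h ∈ E then ‖(star u (dl 1) : HH Γ) g‖ ^ 2 else 0)
      (⟪dl h, (u * MU E * star u) (dl h)⟫_ℂ).re := by
  have hsu : star u ∈ NN (⊤ : Subgroup Γ) := star_mem hu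
  rw [mem_NN] at hsu
  set η := star u (dl 1) with hη
  set ζ := star u (dl h) with hζ
  have h1 : ∀ g, ζ (g * h) = η g := by
    intro g
    have h2 : dl h = UU (Equiv.mulRight h⁻¹) (dl (1 : Γ)) := by
      rw [UU_dl]
      congr 1
      simp
    have h3 := congrArg (fun T : HH Γ →L[ℂ] HH Γ => T (dl 1)) (hsu h⁻¹ (Subgroup.mem_top _))
    simp only [mul_apply_eq_comp] at h3
    rw [hζ, h2, ← h3, UU_apply]
    simp [hη]
  have h4 : ⟪dl h, (u * MU E * star u) (dl h)⟫_ℂ = ⟪ζ, MU E ζ⟫_ℂ := by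
    rw [hζ, ContinuousLinearMap.star_eq_adjoint, ContinuousLinearMap.adjoint_inner_left]
    rfl
  rw [h4]
  have h5 := Complex.hasSum_re (lp.hasSum_inner ζ (MU E ζ))
  have h6 := (Equiv.hasSum_iff (Equiv.mulRight h)).2 h5
  convert h6 using 1
  funext g
  change _ = (⟪ζ (g * h), (MU E ζ : HH Γ) (g * h)⟫_ℂ).re
  rw [MU_apply, h1]
  split_ifs
  · rw [inner_self_eq_norm_sq_to_K]
    norm_cast
  · rw [inner_zero_right]
    rfl

lemma norm_eta {u : HH Γ →L[ℂ] HH Γ} (hu : u * star u = 1) (g : Γ) : ‖star u (dl g)‖ = 1 := by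
  classical
  have h1 : ⟪star u (dl g), star u (dl g)⟫_ℂ = ⟪dl g, dl g⟫_ℂ := by
    rw [ContinuousLinearMap.star_eq_adjoint, ContinuousLinearMap.adjoint_inner_left,
      ← ContinuousLinearMap.star_eq_adjoint]
    have h2 := congrArg (fun T : HH Γ →L[ℂ] HH Γ => T (dl g)) hu
    simp only [mul_apply_eq_comp] at h2
    rw [h2]
    rfl
  rw [inner_self_eq_norm_sq_to_K, inner_self_eq_norm_sq_to_K] at h1
  have h3 : ‖(dl g : HH Γ)‖ = 1 := by
    unfold dl
    rw [lp.norm_single (by norm_num), norm_one]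
  rw [h3] at h1
  have h4 : ‖star u (dl g)‖ ^ 2 = 1 := by
    have : ((‖star u (dl g)‖ ^ 2 : ℝ) : ℂ) = ((1 : ℝ) : ℂ) := by
      push_cast
      simpa using h1
    exact_mod_cast this
  nlinarith [norm_nonneg (star u (dl g))]

open Classical in
theorem negation [Countable Γ] (S : Subgroup Γ)
    (hicc : ∀ g : Γ, g ≠ 1 → {h | ∃ k ∈ S, h = k * g * k⁻¹}.Infinite)
    (E : Set Γ) (hE : ∀ g, ∀ k ∈ S, g * k ∈ E ↔ g ∈ E) (m : ℕ) (v : Fin m → Γ) (s : Fin m → ℝ)
    (hs : ∑ i, s i = 0) (hv : ∀ g, 1 ≤ ∑ i, s i * (if g * v i ∈ E then 1 else 0)) :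
    ¬ (∀ (H : Type) [NormedAddCommGroup H] [InnerProductSpace ℂ H] [CompleteSpace H]
      [TopologicalSpace.SeparableSpace H] (N M : VonNeumannAlgebra H),
      (∀ a ∈ N, a ∈ M) →
      (∀ z ∈ M, (∀ y ∈ M, z * y = y * z) → ∃ c : ℂ, z = c • (1 : H →L[ℂ] H)) →
      (∀ z ∈ N, (∀ y ∈ N, z * y = y * z) → ∃ c : ℂ, z = c • (1 : H →L[ℂ] H)) →
      (∀ z ∈ M, (∀ y ∈ N, z * y = y * z) → ∃ c : ℂ, z = c • (1 : H →L[ℂ] H)) →
      ∀ x ∈ M, ∃ c : ℂ, ∀ (n : ℕ) (ξ η : Fin n → H) (ε : ℝ), 0 < ε →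
        ∃ y ∈ convexHull ℝ
            {T : H →L[ℂ] H | ∃ u ∈ unitary (H →L[ℂ] H), u ∈ N ∧ T = u * x * star u},
          ∀ i : Fin n, ‖⟪η i, (y - c • (1 : H →L[ℂ] H)) (ξ i)⟫_ℂ‖ < ε) := by
  intro hall
  have hNM : ∀ a ∈ NN (⊤ : Subgroup Γ), a ∈ NN S := by
    intro a ha
    rw [mem_NN] at ha ⊢
    exact fun k _ => ha k (Subgroup.mem_top _)
  obtain ⟨c, hc⟩ := hall (HH Γ) (NN ⊤) (NN S) hNM
    (fun z hz hz' => trivial_commutant S hicc hz fun g => hz' _ (left_mem S g))
    (fun z hz hz' => trivial_commutant S hicc (hNM z hz) fun g => hz' _ (left_mem ⊤ g))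
    (fun z hz hz' => trivial_commutant S hicc hz fun g => hz' _ (left_mem ⊤ g))
    (MU E) (MU_mem S E hE)
  set L : (HH Γ →L[ℂ] HH Γ) → ℝ := fun T => ∑ i, s i * (⟪dl (v i), T (dl (v i))⟫_ℂ).re with hL
  have hLadd : ∀ T T', L (T + T') = L T + L T' := by
    intro T T'
    simp only [hL]
    rw [← sum_add_distrib]
    refine sum_congr rfl fun i _ => ?_
    rw [ContinuousLinearMap.add_apply, inner_add_right, Complex.add_re]
    ring
  have hLsmul : ∀ (a : ℝ) T, L (a • T) = a * L T := by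
    intro a T
    simp only [hL]
    rw [mul_sum]
    refine sum_congr rfl fun i _ => ?_
    rw [ContinuousLinearMap.smul_apply, inner_smul_right_eq_smul, Complex.smul_re, smul_eq_mul]
    ring
  have hLset : ∀ u ∈ unitary (HH Γ →L[ℂ] HH Γ), u ∈ NN (⊤ : Subgroup Γ) →
      1 ≤ L (u * MU E * star u) := by
    intro u hu hu'
    have h1 := fun i => (diag hu' E (v i)).mul_left (s i)
    have h2 := hasSum_sum (s := univ) fun i _ => h1 i
    have h3 := norm_sq_eq (star u (dl (1 : Γ)))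
    rw [norm_eta (Unitary.mul_star_self_of_mem hu)] at h3
    have h4 := (summable_sq (star u (dl (1 : Γ)))).hasSum
    rw [← h3, one_pow] at h4
    refine hasSum_le (fun g => ?_) h4 h2
    have h5 := hv g
    have h6 : ∑ i, s i * (if g * v i ∈ E then ‖(star u (dl 1) : HH Γ) g‖ ^ 2 else 0) =
        ‖(star u (dl 1) : HH Γ) g‖ ^ 2 * ∑ i, s i * (if g * v i ∈ E then 1 else 0) := by
      rw [mul_sum]
      refine sum_congr rfl fun i _ => ?_
      split_ifs <;> ring
    rw [h6]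
    have h7 : 0 ≤ ‖(star u (dl 1) : HH Γ) g‖ ^ 2 := by positivity
    nlinarith
  have hconv : convexHull ℝ {T : HH Γ →L[ℂ] HH Γ | ∃ u ∈ unitary (HH Γ →L[ℂ] HH Γ),
      u ∈ NN (⊤ : Subgroup Γ) ∧ T = u * MU E * star u} ⊆ {T | 1 ≤ L T} := by
    apply convexHull_min
    · rintro T ⟨u, hu, hu', rfl⟩
      exact hLset u hu hu'
    · intro T hT T' hT' a b ha hb hab
      simp only [Set.mem_ofPred_eq] at hT hT' ⊢
      rw [hLadd, hLsmul, hLsmul]
      nlinarith
  set A := ∑ i, |s i| with hA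
  have hA0 : 0 ≤ A := sum_nonneg fun i _ => abs_nonneg _
  obtain ⟨y, hy, hy'⟩ := hc m (fun i => dl (v i)) (fun i => dl (v i)) (1 / (1 + A)) (by positivity)
  have h1 : 1 ≤ L y := hconv hy
  have h2 : L (y - c • 1) = L y := by
    have h3 : L (y - c • 1) + L (c • 1) = L y := by
      rw [← hLadd, sub_add_cancel]
    have h4 : L (c • 1) = 0 := by
      simp only [hL]
      have h5 : ∀ i, (⟪dl (v i), (c • (1 : HH Γ →L[ℂ] HH Γ)) (dl (v i))⟫_ℂ).re = c.re := by
        intro i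
        have h6 : (c • (1 : HH Γ →L[ℂ] HH Γ)) (dl (v i)) = c • dl (v i) := rfl
        rw [h6, inner_smul_right, dl_inner, dl_self, mul_one]
      simp only [h5]
      rw [← sum_mul, hs, zero_mul]
    linarith
  have h3 : L (y - c • 1) ≤ A * (1 / (1 + A)) := by
    simp only [hL, hA]
    rw [sum_mul]
    refine sum_le_sum fun i _ => ?_
    have h4 := (hy' i).le
    have h5 := Complex.abs_re_le_norm ⟪dl (v i), (y - c • (1 : HH Γ →L[ℂ] HH Γ)) (dl (v i))⟫_ℂ
    calc _ ≤ |s i * (⟪dl (v i), (y - c • (1 : HH Γ →L[ℂ] HH Γ)) (dl (v i))⟫_ℂ).re| := le_abs_self _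
      _ = |s i| * |(⟪dl (v i), (y - c • (1 : HH Γ →L[ℂ] HH Γ)) (dl (v i))⟫_ℂ).re| := abs_mul _ _
      _ ≤ _ := mul_le_mul_of_nonneg_left (h5.trans h4) (abs_nonneg _)
  have h4 : A * (1 / (1 + A)) < 1 := by
    rw [mul_one_div, div_lt_one (by positivity)]
    linarith
  linarith

end Algebras

end Pool.Agent.H451R3.WRD
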