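import Mathlib
import Pool.Agent.H451R3.WRD

/-!
A countable group with a relatively icc normal subgroup and non-amenable quotient.
-/

set_option autoImplicit false
open Finset

namespace Pool.Agent.H451R3.WRD

abbrev Q := Matrix.SpecialLinearGroup (Fin 2) ℤ

/-- pairs `(q, σ)`, where the permutation `σ` of `Q` is the left translation by `q` outside of a
finite set -/
def Gam : Subgroup (Q × Equiv.Perm Q) where
  carrier := {p | {x | p.2 x ≠ p.1 * x}.Finite}
  one_mem' := by simp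
  mul_mem' {p r} hp hr := by
    simp only [Set.mem_ofPred_eq] at hp hr ⊢
    refine (hr.union (hp.preimage (f := fun x => r.1 * x) (mul_right_injective r.1).injOn)).subset ?_
    intro x hx
    by_contra hcon
    simp only [Set.mem_union, Set.mem_ofPred_eq, Set.mem_preimage, not_or, not_not] at hcon
    apply hx
    change p.2 (r.2 x) = p.1 * r.1 * x
    rw [hcon.1, hcon.2, mul_assoc]
  inv_mem' {p} hp := by
    simp only [Set.mem_ofPred_eq] at hp ⊢
    refine (hp.preimage (f := fun x => p.2⁻¹ x) (p.2⁻¹).injective.injOn).subset ?_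
    intro x hx hcon
    apply hx
    have h1 : p.2 (p.2⁻¹ x) = x := p.2.apply_symm_apply x
    change p.2⁻¹ x = p.1⁻¹ * x
    rw [eq_inv_mul_iff_mul_eq]
    exact hcon.symm.trans h1

lemma gam_fin (γ : Gam) : {x | γ.1.2 x ≠ γ.1.1 * x}.Finite := γ.2

noncomputable def code (γ : Gam) : Q × Finset (Q × Q) :=
  (γ.1.1, (gam_fin γ).toFinset.image fun x => (x, γ.1.2 x))

lemma code_injective : Function.Injective code := by
  classical
  intro γ γ' h
  have h1 : γ.1.1 = γ'.1.1 := congrArg (fun p : Q × Finset (Q × Q) => p.1) h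
  have h2 : (gam_fin γ).toFinset.image (fun x => (x, γ.1.2 x)) =
    (gam_fin γ').toFinset.image (fun x => (x, γ'.1.2 x)) := congrArg (fun p : Q × Finset (Q × Q) => p.2) h
  apply Subtype.ext
  refine Prod.ext h1 (Equiv.ext fun x => ?_)
  by_cases hx : γ.1.2 x = γ.1.1 * x
  · by_cases hx' : γ'.1.2 x = γ'.1.1 * x
    · rw [hx, hx', h1]
    · have : (x, γ'.1.2 x) ∈ (gam_fin γ').toFinset.image (fun x => (x, γ'.1.2 x)) :=
        mem_image_of_mem _ (by simpa using hx')
      rw [← h2, mem_image] at this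
      obtain ⟨y, _, hy⟩ := this
      rw [Prod.mk.injEq] at hy
      rw [← hy.2, hy.1]
  · have : (x, γ.1.2 x) ∈ (gam_fin γ).toFinset.image (fun x => (x, γ.1.2 x)) :=
        mem_image_of_mem _ (by simpa using hx)
    rw [h2, mem_image] at this
    obtain ⟨y, _, hy⟩ := this
    rw [Prod.mk.injEq] at hy
    rw [← hy.2, hy.1]

instance : Countable (Matrix (Fin 2) (Fin 2) ℤ) := inferInstanceAs (Countable (Fin 2 → Fin 2 → ℤ))

instance : Countable Q := Subtype.countable

instance : Countable Gam := code_injective.countable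

/-- unipotent matrices -/
def TT (n : ℤ) : Q := ⟨!![1, n; 0, 1], by simp⟩

def SS : Q := ⟨!![0, -1; 1, 0], by simp⟩

lemma TT_injective : Function.Injective TT := by
  intro m n h
  have := congrArg (fun q : Q => q.1 0 1) h
  simpa [TT] using this

instance : Infinite Q := Infinite.of_injective TT TT_injective

/-- the finitary permutations -/
def Lam : Subgroup Gam := ((MonoidHom.fst Q (Equiv.Perm Q)).comp Gam.subtype).ker

lemma mem_Lam (k : Gam) : k ∈ Lam ↔ k.1.1 = 1 := Iff.rfl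

lemma icc (g : Gam) (hg : g ≠ 1) : {h | ∃ k ∈ Lam, h = k * g * k⁻¹}.Infinite := by
  classical
  have h1 : ∃ x, g.1.2 x ≠ x := by
    by_contra hcon
    push Not at hcon
    have h2 := gam_fin g
    obtain ⟨x, hx⟩ := Set.Infinite.nonempty h2.infinite_compl
    simp only [Set.mem_compl_iff, Set.mem_ofPred_eq, not_not] at hx
    rw [hcon x] at hx
    have h3 : g.1.1 = 1 := by
      have := hx.symm
      rwa [mul_eq_right] at this
    apply hg
    apply Subtype.ext
    refine Prod.ext h3 (Equiv.ext fun x => ?_)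
    exact hcon x
  obtain ⟨x0, hx0⟩ := h1
  have hk : ∀ y : Q, ((1 : Q), Equiv.swap (g.1.2 x0) y) ∈ Gam := by
    intro y
    change {x | Equiv.swap (g.1.2 x0) y x ≠ 1 * x}.Finite
    refine (Set.toFinite {g.1.2 x0, y}).subset ?_
    intro x hx
    simp only [one_mul, ne_eq, Set.mem_ofPred_eq] at hx
    by_contra hcon
    simp only [Set.mem_insert_iff, Set.mem_singleton_iff, not_or] at hcon
    exact hx (Equiv.swap_apply_of_ne_of_ne hcon.1 hcon.2)
  set f : Q → Gam := fun y => ⟨_, hk y⟩ * g * (⟨_, hk y⟩)⁻¹ with hf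
  have hinf : ({x0}ᶜ : Set Q).Infinite := (Set.finite_singleton x0).infinite_compl
  refine Set.infinite_of_injOn_mapsTo (f := f) (s := ({x0}ᶜ : Set Q)) ?_ ?_ hinf
  · have h3 : ∀ y ∈ ({x0}ᶜ : Set Q), (f y).1.2 x0 = y := by
      intro y hy
      have hy' : y ≠ x0 := hy
      change Equiv.swap (g.1.2 x0) y (g.1.2 ((Equiv.swap (g.1.2 x0) y)⁻¹ x0)) = y
      rw [Equiv.swap_inv, Equiv.swap_apply_of_ne_of_ne (Ne.symm hx0) (Ne.symm hy'),
        Equiv.swap_apply_left]
    intro y hy y' hy' h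
    rw [← h3 y hy, ← h3 y' hy', h]
  · intro y _
    exact ⟨⟨_, hk y⟩, rfl, rfl⟩

/-- vectors in the cone -/
def Dd (w : Fin 2 → ℤ) : Prop := |w 0| < |w 1|

/-- base point -/
def pp : Fin 2 → ℤ := ![0, 1]

def EE : Set Gam := {γ | Dd ((γ.1.1⁻¹ : Q).1.mulVec pp)}

lemma EE_inv : ∀ g : Gam, ∀ k ∈ Lam, g * k ∈ EE ↔ g ∈ EE := by
  intro g k hk
  have h1 : (g * k).1.1 = g.1.1 := by
    change g.1.1 * k.1.1 = g.1.1
    rw [(mem_Lam k).1 hk, mul_one]
  unfold EE
  simp only [Set.mem_ofPred_eq]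
  rw [h1]

/-- lift of an element of the quotient -/
def lift (q : Q) : Gam := ⟨(q, Equiv.mulLeft q), by
  change {x | Equiv.mulLeft q x ≠ q * x}.Finite
  simp⟩

lemma mul_lift (g : Gam) (q : Q) :
    g * lift q ∈ EE ↔ Dd ((q⁻¹ : Q).1.mulVec ((g.1.1⁻¹ : Q).1.mulVec pp)) := by
  have h1 : (g * lift q).1.1⁻¹ = q⁻¹ * g.1.1⁻¹ := by
    change (g.1.1 * q)⁻¹ = _
    rw [mul_inv_rev]
  unfold EE
  simp only [Set.mem_ofPred_eq]
  rw [h1, Matrix.mulVec_mulVec]
  rfl

def vA : Fin 4 → Q := ![1, SS, TT 1, TT (-1)]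
def vB (j : Fin 8) : Q := TT (2 * (j : ℤ))

lemma TT_inv (n : ℤ) (w : Fin 2 → ℤ) : ((TT n)⁻¹ : Q).1.mulVec w = ![w 0 - n * w 1, w 1] := by
  rw [Matrix.SpecialLinearGroup.SL2_inv_expl]
  ext i
  fin_cases i
  · simp [TT, Matrix.mulVec, dotProduct, Fin.sum_univ_two]
    ring
  · simp [TT, Matrix.mulVec, dotProduct, Fin.sum_univ_two]

lemma SS_inv (w : Fin 2 → ℤ) : ((SS)⁻¹ : Q).1.mulVec w = ![w 1, - w 0] := by
  rw [Matrix.SpecialLinearGroup.SL2_inv_expl]
  ext i
  fin_cases i <;> simp [SS, Matrix.mulVec, dotProduct, Fin.sum_univ_two]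

lemma ite_nn (P : Prop) [Decidable P] : (0 : ℝ) ≤ if P then 1 else 0 := by
  split_ifs <;> norm_num

open Classical in
lemma count (w : Fin 2 → ℤ) (hw : w ≠ 0) :
    (1 : ℝ) ≤ 2 * (∑ i : Fin 4, if Dd ((vA i)⁻¹.1.mulVec w) then (1 : ℝ) else 0) -
      ∑ j : Fin 8, if Dd ((vB j)⁻¹.1.mulVec w) then (1 : ℝ) else 0 := by
  have h1 : ∃ i : Fin 4, Dd ((vA i)⁻¹.1.mulVec w) := by
    rcases lt_trichotomy |w 0| |w 1| with h | h | h
    · refine ⟨0, ?_⟩
      change Dd ((1 : Q)⁻¹.1.mulVec w)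
      rw [inv_one]
      change Dd ((1 : Matrix (Fin 2) (Fin 2) ℤ).mulVec w)
      rw [Matrix.one_mulVec]
      exact h
    · have h0 : 0 < |w 1| := by
        rw [abs_pos]
        intro h0
        apply hw
        rw [h0, abs_zero, abs_eq_zero] at h
        ext i
        fin_cases i
        · exact h
        · exact h0
      rcases abs_eq_abs.1 h with h2 | h2
      · refine ⟨2, ?_⟩
        change Dd ((TT 1)⁻¹.1.mulVec w)
        rw [TT_inv]
        change |w 0 - 1 * w 1| < |w 1|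
        rw [h2, one_mul, sub_self, abs_zero]
        exact h0
      · refine ⟨3, ?_⟩
        change Dd ((TT (-1))⁻¹.1.mulVec w)
        rw [TT_inv]
        change |w 0 - (-1) * w 1| < |w 1|
        rw [h2, show -w 1 - -1 * w 1 = 0 by ring, abs_zero]
        exact h0
    · refine ⟨1, ?_⟩
      change Dd ((SS)⁻¹.1.mulVec w)
      rw [SS_inv]
      change |w 1| < |- w 0|
      rw [abs_neg]
      exact h
  obtain ⟨i, hi⟩ := h1
  have h2 : (1 : ℝ) ≤ ∑ i : Fin 4, if Dd ((vA i)⁻¹.1.mulVec w) then (1 : ℝ) else 0 := by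
    have := single_le_sum (f := fun i : Fin 4 => if Dd ((vA i)⁻¹.1.mulVec w) then (1 : ℝ) else 0)
      (fun j _ => ite_nn _) (mem_univ i)
    simp only [if_pos hi] at this
    exact this
  have h3 : ∑ j : Fin 8, (if Dd ((vB j)⁻¹.1.mulVec w) then (1 : ℝ) else 0) ≤ 1 := by
    rw [sum_boole]
    have : #({j : Fin 8 | Dd ((vB j)⁻¹.1.mulVec w)} : Finset (Fin 8)) ≤ 1 := by
      rw [card_le_one]
      intro a ha b hb
      rw [mem_filter] at ha hb
      have ha' := ha.2
      have hb' := hb.2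
      unfold vB at ha' hb'
      rw [TT_inv] at ha' hb'
      change |w 0 - 2 * (a : ℤ) * w 1| < |w 1| at ha'
      change |w 0 - 2 * (b : ℤ) * w 1| < |w 1| at hb'
      have h4 : |2 * ((a : ℤ) - b) * w 1| < 2 * |w 1| := by
        have h5 : 2 * ((a : ℤ) - b) * w 1 = (w 0 - 2 * (b : ℤ) * w 1) - (w 0 - 2 * (a : ℤ) * w 1) := by
          ring
        rw [h5]
        have := abs_sub (w 0 - 2 * (b : ℤ) * w 1) (w 0 - 2 * (a : ℤ) * w 1)
        linarith
      rw [abs_mul, abs_mul, abs_two] at h4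
      have h5 : |(a : ℤ) - b| < 1 := by
        by_contra hcon
        push Not at hcon
        have := abs_nonneg (w 1)
        nlinarith
      have h6 : (a : ℤ) - b = 0 := Int.abs_lt_one_iff.1 h5
      apply Fin.ext
      omega
    exact_mod_cast this
  linarith

end Pool.Agent.H451R3.WRD
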